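import Pool.Agent.Work.MP_6b7c5d_co.Game

namespace Pool.Agent.Work.MP_6b7c5d_co

theorem main_full (n : ℕ) (G : SimpleGraph (Fin n)) :
    ∃ (k : ℕ) (u v : Fin k → Fin n)
      (P : ∀ i : Fin k, (⊤ : SimpleGraph (Fin n)).Walk (u i) (v i)),
      k ≤ (n + 1) / 2 ∧
      (∀ i : Fin k, (P i).IsPath) ∧
      ∀ a b : Fin n, a ≠ b →
        (G.Adj a b ↔
          Odd ((Finset.univ.filter (fun i : Fin k => s(a, b) ∈ (P i).edges)).card)) := by
  classical
  rcases Nat.eq_zero_or_pos n with rfl | hn
  · exact ⟨0, Fin.elim0, Fin.elim0, fun i => i.elim0, by simp, fun i => i.elim0,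
      fun a => a.elim0⟩
  set g : Sym2 (Fin n) → ZMod 2 := fun e => if e ∈ G.edgeSet then 1 else 0 with hg
  obtain ⟨S, h1, h2, h3⟩ := cover_full (⟨0, hn⟩ : Fin n)
    (Finset.univ.filter (fun e => g e = 1)).val ⟨Finset.nodup _, by
      intro e he hd
      have h0 : g e = 1 := by simpa using he
      have h1 : e ∉ G.edgeSet := fun h => G.not_isDiag_of_mem_edgeSet h hd
      simp [hg, h1] at h0⟩
  rw [par_support] at h3
  rw [Fintype.card_fin] at h2
  induction S using Quotient.inductionOn with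
  | h L =>
  have hw : ∀ i : Fin L.length, ∃ (a b : Fin n) (p : (⊤ : SimpleGraph (Fin n)).Walk a b),
      p.IsPath ∧ (p.edges : Multiset (Sym2 (Fin n))) = E (L.get i) := by
    intro i
    obtain ⟨g1, g2⟩ := h1 (L.get i) (by simp)
    obtain ⟨a, l, hl⟩ := List.exists_cons_of_ne_nil g1
    rw [hl] at g2 ⊢
    obtain ⟨b, p, p1, p2⟩ := exists_walk a l g2
    exact ⟨a, b, p, by rw [SimpleGraph.Walk.isPath_def, p1]; exact g2, p2⟩
  choose u v P hP1 hP2 using hw
  have h2' : L.length ≤ (n - 1) / 2 + 1 := by simpa using h2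
  refine ⟨L.length, u, v, P, by omega, hP1, fun a b _ => ?_⟩
  have hcount : (Finset.univ.filter (fun i : Fin L.length => s(a, b) ∈ (P i).edges)).card =
      Multiset.count s(a, b) (TE (L : Multiset (List (Fin n)))) := by
    have hTE : TE (L : Multiset (List (Fin n))) = ∑ i : Fin L.length, E (L.get i) := by
      rw [TE, Multiset.map_coe, Multiset.sum_coe, ← List.sum_ofFn]
      congr 1
      conv_lhs => rw [← List.ofFn_get L]
      rw [List.map_ofFn]; rfl
    rw [hTE, Multiset.count_sum', Finset.card_filter]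
    apply Finset.sum_congr rfl
    intro i _
    rw [← hP2 i]
    split_ifs with h
    · exact (Multiset.count_eq_one_of_mem (by simpa using (hP1 i).isTrail.edges_nodup)
        (by simpa using h)).symm
    · exact (Multiset.count_eq_zero_of_notMem (by simpa using h)).symm
  have h4 := congrFun h3 s(a, b)
  rw [hcount, ← ZMod.natCast_eq_one_iff_odd]
  change _ ↔ par (TE (L : Multiset (List (Fin n)))) s(a, b) = 1
  change par (TE (L : Multiset (List (Fin n)))) s(a, b) = _ at h4
  rw [h4]
  simp [hg]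

end Pool.Agent.Work.MP_6b7c5d_co
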