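import Mathlib.Data.Sym.Sym2
import Mathlib.Data.Multiset.Bind
import Mathlib.Data.ZMod.Basic
import Mathlib.Algebra.BigOperators.Group.Multiset.Basic
import Mathlib.Tactic.Abel
import Mathlib.Tactic.Ring
import Mathlib.Tactic.LinearCombination

namespace Pool.Agent.Work.MP_6b7c5d_co

variable {V : Type*}

/-- Edge multiset of the path given by a list of vertices. -/
def E : List V → Multiset (Sym2 V)
  | a :: b :: l => s(a, b) ::ₘ E (b :: l)
  | _ => 0

@[simp] theorem E_nil : E ([] : List V) = 0 := rfl
@[simp] theorem E_single (a : V) : E [a] = 0 := rfl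
@[simp] theorem E_cons_cons (a b : V) (l : List V) :
    E (a :: b :: l) = s(a, b) ::ₘ E (b :: l) := rfl

theorem E_append (A : List V) (x : V) (B : List V) :
    E (A ++ x :: B) = E (A ++ [x]) + E (x :: B) := by
  induction A with
  | nil => simp
  | cons a A ih =>
    cases A with
    | nil => simp
    | cons b A =>
      simp only [List.cons_append, E_cons_cons] at ih ⊢
      rw [ih, Multiset.cons_add]

theorem E_mid (A : List V) (a x : V) (B : List V) :
    E (A ++ a :: x :: B) = s(a, x) ::ₘ (E (A ++ [a]) + E (x :: B)) := by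
  rw [E_append, E_cons_cons, Multiset.add_cons]

theorem E_reverse (l : List V) : E l.reverse = E l := by
  induction l with
  | nil => simp
  | cons a l ih =>
    cases l with
    | nil => simp
    | cons b l =>
      rw [E_cons_cons, ← ih]
      simp only [List.reverse_cons, List.append_assoc, List.cons_append, List.nil_append]
      rw [E_mid, E_single, add_zero, Sym2.eq_swap]

/-- Multiset of the two ends of a path. -/
def N (l : List V) : Multiset V := (l.head?.toList : Multiset V) + (l.getLast?.toList : Multiset V)

theorem N_reverse (l : List V) : N l.reverse = N l := by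
  simp [N, add_comm]

theorem N_cons (a : V) (l : List V) :
    N (a :: l) = {a} + {(a :: l).getLast (List.cons_ne_nil _ _)} := by
  rw [N, List.getLast?_eq_some_getLast (List.cons_ne_nil _ _)]
  rfl

theorem card_N {l : List V} (h : l ≠ []) : Multiset.card (N l) = 2 := by
  cases l with
  | nil => exact absurd rfl h
  | cons a l => rw [N_cons]; simp

theorem N_head_change (a b : V) (l l' : List V)
    (h : (a :: l).getLast? = (b :: l').getLast?) : N (a :: l) + {b} = N (b :: l') + {a} := by
  rw [N, N, h]
  simp only [List.head?_cons, Option.toList_some, Multiset.coe_singleton]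
  abel

theorem mem_N {l : List V} {y : V} (h : y ∈ N l) :
    ∃ Q, (Q = l ∨ Q = l.reverse) ∧ Q.head? = some y := by
  rw [N, Multiset.mem_add] at h
  rcases h with h | h
  · exact ⟨l, Or.inl rfl, by simpa using h⟩
  · exact ⟨l.reverse, Or.inr rfl, by simpa using h⟩

/-- Total edge multiset of a system of paths. -/
def TE (S : Multiset (List V)) : Multiset (Sym2 V) := (S.map E).sum
/-- Total end multiset of a system of paths. -/
def TN (S : Multiset (List V)) : Multiset V := (S.map N).sum
/-- Every member is a genuine path. -/
def Good (S : Multiset (List V)) : Prop := ∀ P ∈ S, P ≠ [] ∧ P.Nodup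

@[simp] theorem TE_zero : TE (0 : Multiset (List V)) = 0 := rfl
@[simp] theorem TN_zero : TN (0 : Multiset (List V)) = 0 := rfl
@[simp] theorem TE_cons (P : List V) (S) : TE (P ::ₘ S) = E P + TE S := by simp [TE]
@[simp] theorem TN_cons (P : List V) (S) : TN (P ::ₘ S) = N P + TN S := by simp [TN]
@[simp] theorem TE_add (S S' : Multiset (List V)) : TE (S + S') = TE S + TE S' := by simp [TE]
@[simp] theorem TN_add (S S' : Multiset (List V)) : TN (S + S') = TN S + TN S' := by simp [TN]

theorem good_cons {P : List V} {S} : Good (P ::ₘ S) ↔ (P ≠ [] ∧ P.Nodup) ∧ Good S := by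
  simp [Good]

theorem good_add {S S' : Multiset (List V)} (h : Good S) (h' : Good S') : Good (S + S') := by
  intro P hP
  rcases Multiset.mem_add.1 hP with h1 | h1
  · exact h P h1
  · exact h' P h1

theorem card_TN {S : Multiset (List V)} (h : Good S) :
    Multiset.card (TN S) = 2 * Multiset.card S := by
  induction S using Multiset.induction_on with
  | empty => simp
  | cons P S ih =>
    rw [good_cons] at h
    rw [TN_cons, Multiset.card_add, card_N h.1.1, ih h.2, Multiset.card_cons]; ring

theorem mem_TN {S : Multiset (List V)} {y : V} : y ∈ TN S ↔ ∃ P ∈ S, y ∈ N P := by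
  induction S using Multiset.induction_on with
  | empty => simp
  | cons P S ih => simp [ih]

theorem E_le_TE {S : Multiset (List V)} {P : List V} (h : P ∈ S) : E P ≤ TE S := by
  obtain ⟨S0, rfl⟩ := Multiset.exists_cons_of_mem h
  simp

theorem orient_props {P Q : List V} (h : Q = P ∨ Q = P.reverse) :
    E Q = E P ∧ N Q = N P ∧ (P.Nodup → Q.Nodup) := by
  rcases h with rfl | rfl
  · simp
  · exact ⟨E_reverse _, N_reverse _, fun h => List.nodup_reverse.2 h⟩

/-- Pull out a path with a prescribed end, oriented so that this end is the head. -/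
theorem exists_oriented {S : Multiset (List V)} (hS : Good S) {y : V} (hy : y ∈ TN S) :
    ∃ l S0, Good ((y :: l) ::ₘ S0) ∧ Multiset.card S = Multiset.card S0 + 1 ∧
      TE S = E (y :: l) + TE S0 ∧ TN S = N (y :: l) + TN S0 := by
  obtain ⟨P, hP, hy'⟩ := mem_TN.1 hy
  obtain ⟨S0, rfl⟩ := Multiset.exists_cons_of_mem hP
  obtain ⟨Q, hQ, hQy⟩ := mem_N hy'
  obtain ⟨h1, h2, h3⟩ := orient_props hQ
  rw [good_cons] at hS
  cases Q with
  | nil => simp at hQy
  | cons a l =>
    simp only [List.head?_cons, Option.some.injEq] at hQy
    subst hQy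
    exact ⟨l, S0, good_cons.2 ⟨⟨List.cons_ne_nil _ _, h3 hS.1.2⟩, hS.2⟩, by simp, by simp [h1],
      by simp [h2]⟩

/-- Posa rotation of the path `y :: B ++ w :: x :: C` at its head, with pivot `x`. -/
theorem rotate_props (y : V) (B : List V) (w x : V) (C : List V) :
    E (w :: B.reverse ++ y :: x :: C) + {s(w, x)} = E (y :: B ++ w :: x :: C) + {s(y, x)} ∧
    N (w :: B.reverse ++ y :: x :: C) + {y} = N (y :: B ++ w :: x :: C) + {w} ∧
    (w :: B.reverse ++ y :: x :: C).Perm (y :: B ++ w :: x :: C) := by
  refine ⟨?_, ?_, ?_⟩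
  · rw [E_mid, E_mid]
    have : (w :: B.reverse ++ [y]) = (y :: B ++ [w]).reverse := by simp
    rw [this, E_reverse]
    simp only [← Multiset.singleton_add]
    abel
  · apply N_head_change
    change ((w :: B.reverse) ++ y :: x :: C).getLast? = ((y :: B) ++ w :: x :: C).getLast?
    rw [List.getLast?_append_of_ne_nil _ (List.cons_ne_nil _ _),
      List.getLast?_append_of_ne_nil _ (List.cons_ne_nil _ _), List.getLast?_cons_cons,
      List.getLast?_cons_cons]
  · have h1 : (w :: B.reverse ++ [y]).Perm (y :: B ++ [w]) := by
      have : (w :: B.reverse ++ [y]) = (y :: B ++ [w]).reverse := by simp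
      rw [this]; exact List.reverse_perm _
    simpa using h1.append_right (x :: C)

end Pool.Agent.Work.MP_6b7c5d_co
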