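import Pool.Agent.Work.MP_6b7c5d_co.Lovasz

namespace Pool.Agent.Work.MP_6b7c5d_co

variable {V : Type*} [DecidableEq V]

/-- Vertices of a path that are last or whose successor lies in `W`. -/
def bad (W : Finset V) : List V → Finset V
  | [] => ∅
  | [a] => {a}
  | a :: b :: l => if b ∈ W then insert a (bad W (b :: l)) else bad W (b :: l)

theorem ok_of_not_bad (W : Finset V) (t : V) : ∀ P : List V, t ∉ bad W P →
    t ∉ P ∨ ∃ B q C, P = B ++ t :: q :: C ∧ q ∉ W
  | [], _ => Or.inl (by simp)
  | [a], h => Or.inl (by simpa [bad] using h)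
  | a :: b :: l, h => by
    have h2 : t ∉ bad W (b :: l) := by
      intro h3
      apply h
      rw [bad]
      split_ifs
      · exact Finset.mem_insert_of_mem h3
      · exact h3
    rcases ok_of_not_bad W t (b :: l) h2 with h3 | ⟨B, q, C, h3, h4⟩
    · by_cases hta : t = a
      · subst hta
        right
        refine ⟨[], b, l, rfl, fun hb => h ?_⟩
        rw [bad, if_pos hb]
        exact Finset.mem_insert_self _ _
      · left
        intro h5
        rcases List.mem_cons.1 h5 with h6 | h6
        · exact hta h6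
        · exact h3 h6
    · exact Or.inr ⟨a :: B, q, C, by rw [h3]; rfl, h4⟩

theorem card_bad_aux (W : Finset V) : ∀ (a : V) (l : List V), (a :: l).Nodup →
    (bad W (a :: l)).card ≤ (W.filter (· ∈ l)).card + 1
  | a, [], _ => by simp [bad]
  | a, b :: l, h => by
    have h2 := card_bad_aux W b l (List.nodup_cons.1 h).2
    have hb : b ∉ l := (List.nodup_cons.1 (List.nodup_cons.1 h).2).1
    rw [bad]
    split_ifs with hbW
    · have : W.filter (· ∈ b :: l) = insert b (W.filter (· ∈ l)) := by
        ext x
        simp only [List.mem_cons, Finset.mem_filter, Finset.mem_insert]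
        constructor
        · rintro ⟨h1, h3 | h3⟩
          · exact Or.inl h3
          · exact Or.inr ⟨h1, h3⟩
        · rintro (rfl | ⟨h1, h3⟩)
          · exact ⟨hbW, Or.inl rfl⟩
          · exact ⟨h1, Or.inr h3⟩
      have hnm : b ∉ W.filter (· ∈ l) := fun h => hb (Finset.mem_filter.1 h).2
      rw [this, Finset.card_insert_of_notMem hnm]
      have := Finset.card_insert_le a (bad W (b :: l))
      omega
    · refine h2.trans (Nat.add_le_add_right (Finset.card_le_card ?_) 1)
      intro x hx
      simp only [Finset.mem_filter, List.mem_cons] at hx ⊢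
      exact ⟨hx.1, Or.inr hx.2⟩

theorem card_bad (W : Finset V) (a : V) (l : List V) (h : (a :: l).Nodup) (ha : a ∈ W) :
    (bad W (a :: l)).card ≤ W.card := by
  refine (card_bad_aux W a l h).trans ?_
  apply Finset.card_lt_card
  refine ⟨Finset.filter_subset _ _, fun h2 => ?_⟩
  exact (List.nodup_cons.1 h).1 (Finset.mem_filter.1 (h2 ha)).2

/-- Move the end `y` of a path to `t`, by an extension or a rotation. -/
theorem move (W : Finset V) (y : V) (l : List V) (t : V) (h : (y :: l).Nodup) (hty : t ≠ y)
    (ht : t ∉ bad W (y :: l)) :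
    ∃ P' : List V, P' ≠ [] ∧ P'.Nodup ∧ N P' + {y} = N (y :: l) + {t} ∧
      (par (E P') = par (E (y :: l)) + par {s(y, t)} ∨
        ∃ q, q ∉ W ∧ q ≠ t ∧ par (E P') = par (E (y :: l)) + par {s(y, q)} + par {s(q, t)}) := by
  rcases ok_of_not_bad W t _ ht with h1 | ⟨B, q, C, h1, h2⟩
  · refine ⟨t :: y :: l, List.cons_ne_nil _ _, List.nodup_cons.2 ⟨h1, h⟩,
      N_head_change t y (y :: l) l List.getLast?_cons_cons, Or.inl ?_⟩
    rw [E_cons_cons, par_cons, add_comm, Sym2.eq_swap]
  · cases B with
    | nil => exact absurd (List.cons.inj h1).1.symm hty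
    | cons a B =>
      have ha : y = a := (List.cons.inj h1).1
      subst ha
      obtain ⟨r1, r2, r3⟩ := rotate_props y B t q C
      rw [← h1] at r1 r2 r3
      refine ⟨_, by simp, r3.nodup_iff.2 h, r2, Or.inr ⟨q, h2, ?_, ?_⟩⟩
      · rintro rfl
        rw [h1] at h
        have := (List.nodup_append.1 h).2.1
        simp at this
      · have h3 := congrArg par r1
        rw [par_add, par_add] at h3
        have h4 := add_self_z2 (par ({s(t, q)} : Multiset (Sym2 V)))
        rw [Sym2.eq_swap (a := q)]
        linear_combination h3 - h4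

theorem connect [Fintype V] (W : Finset V) (hW : 3 * W.card < Fintype.card V) (v : V) (l : List V)
    (S0 : Multiset (List V)) (u : V) (hS : Good ((v :: l) ::ₘ S0)) (hu : u ∈ TN S0)
    (huW : u ∈ W) (hvW : v ∈ W) :
    ∃ (S' : Multiset (List V)) (mid : List V), Good S' ∧
      Multiset.card S' = Multiset.card S0 + 1 ∧ mid.Nodup ∧ (∀ x ∈ mid, x ∉ W) ∧ mid.length ≤ 3 ∧
      par (TE S') = par (E (v :: l) + TE S0) + par (E (u :: mid ++ [v])) ∧
      ∀ w ∈ N (v :: l) + TN S0, w ≠ u → w ≠ v → w ∈ TN S' := by
  rw [good_cons] at hS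
  obtain ⟨l', S1, g1, g2, g3, g4⟩ := exists_oriented hS.2 hu
  rw [good_cons] at g1
  obtain ⟨t, ht⟩ : ∃ t, t ∉ W ∪ bad W (v :: l) ∪ bad W (u :: l') := by
    by_contra hc
    push Not at hc
    have h1 : Finset.univ ⊆ W ∪ bad W (v :: l) ∪ bad W (u :: l') := fun t _ => hc t
    have h2 := Finset.card_le_card h1
    have h3 := Finset.card_union_le (W ∪ bad W (v :: l)) (bad W (u :: l'))
    have h4 := Finset.card_union_le W (bad W (v :: l))
    have h5 := card_bad W v l hS.1.2 hvW
    have h6 := card_bad W u l' g1.1.2 huW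
    rw [Finset.card_univ] at h2
    omega
  simp only [Finset.mem_union, not_or] at ht
  obtain ⟨⟨ht1, ht2⟩, ht3⟩ := ht
  obtain ⟨P1, a1, a2, a3, a4⟩ := move W v l t hS.1.2 (fun h => ht1 (h ▸ hvW)) ht2
  obtain ⟨P2, b1, b2, b3, b4⟩ := move W u l' t g1.1.2 (fun h => ht1 (h ▸ huW)) ht3
  have hG : Good (P1 ::ₘ P2 ::ₘ S1) := good_cons.2 ⟨⟨a1, a2⟩, good_cons.2 ⟨⟨b1, b2⟩, g1.2⟩⟩
  have hc : Multiset.card (P1 ::ₘ P2 ::ₘ S1) = Multiset.card S0 + 1 := by simp [g2]
  have hN : ∀ w ∈ N (v :: l) + TN S0, w ≠ u → w ≠ v → w ∈ TN (P1 ::ₘ P2 ::ₘ S1) := by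
    intro w hw hwu hwv
    have h1 : TN (P1 ::ₘ P2 ::ₘ S1) + {v} + {u} = N (v :: l) + TN S0 + {t} + {t} := by
      rw [TN_cons, TN_cons, g4]
      have : N P1 + (N P2 + TN S1) + {v} + {u} = (N P1 + {v}) + (N P2 + {u}) + TN S1 := by abel
      rw [this, a3, b3]; abel
    have h2 : w ∈ TN (P1 ::ₘ P2 ::ₘ S1) + {v} + {u} := by
      rw [h1]
      exact Multiset.mem_add.2 (Or.inl (Multiset.mem_add.2 (Or.inl hw)))
    simpa [hwu, hwv] using h2
  have hE : par (TE (P1 ::ₘ P2 ::ₘ S1)) = par (E P1) + par (E P2) + par (TE S1) := by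
    rw [TE_cons, TE_cons, par_add, par_add, add_assoc]
  have hE0 : par (E (v :: l) + TE S0) = par (E (v :: l)) + par (E (u :: l')) + par (TE S1) := by
    rw [g3, par_add, par_add, add_assoc]
  rcases a4 with a4 | ⟨q, q1, q2, a4⟩ <;> rcases b4 with b4 | ⟨r, r1, r2, b4⟩
  · refine ⟨_, [t], hG, hc, by simp, by simpa using ht1, by simp, ?_, hN⟩
    rw [hE, hE0, a4, b4]
    simp only [List.cons_append, List.nil_append, E_cons_cons, E_single, par_cons, par_zero,
      Sym2.eq_swap (a := t) (b := v)]
    ring
  · refine ⟨_, [r, t], hG, hc, by simpa using r2, by simpa using ⟨r1, ht1⟩, by simp, ?_, hN⟩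
    rw [hE, hE0, a4, b4]
    simp only [List.cons_append, List.nil_append, E_cons_cons, E_single, par_cons, par_zero,
      Sym2.eq_swap (a := t) (b := v)]
    ring
  · refine ⟨_, [t, q], hG, hc, by simpa using q2.symm, by simpa using ⟨ht1, q1⟩, by simp, ?_, hN⟩
    rw [hE, hE0, a4, b4]
    simp only [List.cons_append, List.nil_append, E_cons_cons, E_single, par_cons, par_zero,
      Sym2.eq_swap (a := t) (b := q), Sym2.eq_swap (a := q) (b := v)]
    ring
  · by_cases hqr : r = q
    · subst hqr
      refine ⟨_, [r], hG, hc, by simp, by simpa using r1, by simp, ?_, hN⟩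
      rw [hE, hE0, a4, b4]
      simp only [List.cons_append, List.nil_append, E_cons_cons, E_single, par_cons, par_zero,
        Sym2.eq_swap (a := r) (b := v)]
      linear_combination add_self_z2 (par ({s(r, t)} : Multiset (Sym2 V)))
    · refine ⟨_, [r, t, q], hG, hc, by simp [hqr, r2, q2.symm], by simpa using ⟨r1, ht1, q1⟩,
        by simp, ?_, hN⟩
      rw [hE, hE0, a4, b4]
      simp only [List.cons_append, List.nil_append, E_cons_cons, E_single, par_cons, par_zero,
        Sym2.eq_swap (a := t) (b := q), Sym2.eq_swap (a := q) (b := v)]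
      ring

/-- The vertices of a list of pairs. -/
def flat : List (V × V) → List V
  | [] => []
  | p :: M => p.1 :: p.2 :: flat M

/-- The edges of a list of pairs. -/
def edgesOf (M : List (V × V)) : Multiset (Sym2 V) := (M.map fun p => s(p.1, p.2) : List _)

omit [DecidableEq V] in
theorem edgesOf_cons (p : V × V) (M) : edgesOf (p :: M) = s(p.1, p.2) ::ₘ edgesOf M := rfl

omit [DecidableEq V] in
theorem flat_append (M M' : List (V × V)) : flat (M ++ M') = flat M ++ flat M' := by
  induction M with
  | nil => rfl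
  | cons p M ih => simp [flat, ih]

omit [DecidableEq V] in
theorem edgesOf_append (M M' : List (V × V)) : edgesOf (M ++ M') = edgesOf M + edgesOf M' := by
  simp [edgesOf]

omit [DecidableEq V] in
theorem length_flat (M : List (V × V)) : (flat M).length = 2 * M.length := by
  induction M with
  | nil => rfl
  | cons p M ih => simp [flat, ih]; ring

/-- One carrier path absorbs a whole group of pairs. -/
theorem carry [Fintype V] : ∀ (I : List (V × V)) (v : V) (T : List V) (S : Multiset (List V)),
    Good S → (v :: T ++ flat I).Nodup → v ∈ TN S → (∀ w ∈ flat I, w ∈ TN S) →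
    (I = [] ∨ 3 * (T.length + 1 + 5 * I.length) < Fintype.card V + 9) →
    ∃ (S' : Multiset (List V)) (T' : List V), Good S' ∧ Multiset.card S' = Multiset.card S ∧
      T' ≠ [] ∧ T'.Nodup ∧
      par (TE S') + par (E T') = par (TE S) + par (E (v :: T)) + par (edgesOf I) ∧
      ∀ w ∈ TN S, w ≠ v → w ∉ flat I → w ∈ TN S' := by
  intro I
  induction I with
  | nil =>
    intro v T S hS hn _ _ _
    exact ⟨S, v :: T, hS, rfl, List.cons_ne_nil _ _, by simpa [flat] using hn,
      by simp [edgesOf], fun w hw _ _ => hw⟩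
  | cons p I ih =>
    intro v T S hS hn hv hI hlen
    obtain ⟨l, S0, g1, g2, g3, g4⟩ := exists_oriented hS hv
    have hlen' : 3 * (T.length + 1 + 5 * (I.length + 1)) < Fintype.card V + 9 := by
      rcases hlen with h | h
      · exact absurd h (List.cons_ne_nil _ _)
      · simpa using h
    have main : ∀ a b : V, (v :: T ++ a :: b :: flat I).Nodup → a ∈ TN S0 → b ∈ TN S →
        (∀ w ∈ flat I, w ∈ TN S) →
        ∃ (S' : Multiset (List V)) (T' : List V), Good S' ∧ Multiset.card S' = Multiset.card S ∧
          T' ≠ [] ∧ T'.Nodup ∧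
          par (TE S') + par (E T') =
            par (TE S) + par (E (v :: T)) + par (s(a, b) ::ₘ edgesOf I) ∧
          ∀ w ∈ TN S, w ≠ v → w ∉ a :: b :: flat I → w ∈ TN S' := by
      intro a b hn ha hb hI
      set W := (v :: T ++ a :: b :: flat I).toFinset with hW
      have hWc : 3 * W.card < Fintype.card V := by
        have := List.toFinset_card_le (v :: T ++ a :: b :: flat I)
        rw [← hW] at this
        simp only [List.length_append, List.length_cons, length_flat] at this
        omega
      obtain ⟨S1, mid, c1, c2, c3, c4, c5, c6, c7⟩ := connect W hWc v l S0 a g1 ha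
        (by simp [hW]) (by simp [hW])
      rw [← g4] at c7
      rw [← g3] at c6
      have hperm : (b :: (a :: mid ++ v :: T) ++ flat I).Perm
          (mid ++ (v :: T ++ a :: b :: flat I)) := by
        rw [← Multiset.coe_eq_coe]
        simp only [← Multiset.coe_add, ← Multiset.cons_coe, ← Multiset.singleton_add]
        abel
      have hn2 : (b :: (a :: mid ++ v :: T) ++ flat I).Nodup := by
        rw [hperm.nodup_iff, List.nodup_append]
        refine ⟨c3, hn, ?_⟩
        rintro x hx y hy rfl
        exact c4 x hx (List.mem_toFinset.2 hy)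
      have hn3 := hn
      simp only [List.cons_append, List.nodup_cons, List.mem_append, List.mem_cons, not_or,
        List.nodup_append] at hn3
      obtain ⟨S2, T2, d1, d2, d3, d4, d5, d6⟩ := ih b (a :: mid ++ v :: T) S1 c1 hn2
        (c7 b hb (fun h => hn3.2.2.1.1.1 h.symm) (fun h => hn3.1.2.2.1 h.symm))
        (fun w hw => c7 w (hI w hw) (fun h => hn3.2.2.1.1.2 (h ▸ hw))
          (fun h => hn3.1.2.2.2 (h ▸ hw)))
        (by
          right
          simp only [List.length_append, List.length_cons]
          omega)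
      refine ⟨S2, T2, d1, by omega, d3, d4, ?_, ?_⟩
      · have hE : E (b :: (a :: mid ++ v :: T)) =
            s(a, b) ::ₘ (E (a :: mid ++ [v]) + E (v :: T)) := by
          rw [← E_append, Sym2.eq_swap]; rfl
        rw [d5, c6, hE, par_cons, par_add, par_cons]
        linear_combination add_self_z2 (par (E (a :: mid ++ [v])))
      · intro w hw hwv hw2
        simp only [List.mem_cons, not_or] at hw2
        exact d6 w (c7 w hw hw2.1 hwv) hw2.2.1 hw2.2.2
    have hn3 := hn
    simp only [flat, List.cons_append, List.nodup_cons, List.mem_append, List.mem_cons, not_or,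
      List.nodup_append] at hn3
    have hI' : ∀ w ∈ flat I, w ∈ TN S := fun w hw => hI w (by simp [flat, hw])
    have h1 : p.1 ∈ TN S := hI _ (by simp [flat])
    have h2 : p.2 ∈ TN S := hI _ (by simp [flat])
    by_cases hp : p.1 ∈ TN S0
    · exact main p.1 p.2 hn hp h2 hI'
    · have hp2 : p.2 ∈ TN S0 := by
        rw [g4, N_cons] at h1 h2
        simp only [Multiset.mem_add, Multiset.mem_singleton] at h1 h2
        rcases h2 with (h2 | h2) | h2
        · exact absurd h2.symm hn3.1.2.2.1
        · rcases h1 with (h1 | h1) | h1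
          · exact absurd h1.symm hn3.1.2.1
          · exact absurd (h1.trans h2.symm) hn3.2.2.1.1.1
          · exact absurd h1 hp
        · exact h2
      have hperm : (v :: T ++ p.2 :: p.1 :: flat I).Perm (v :: T ++ flat (p :: I)) :=
        List.Perm.append_left _ (List.Perm.swap _ _ _)
      obtain ⟨S2, T2, d1, d2, d3, d4, d5, d6⟩ := main p.2 p.1 (hperm.nodup_iff.2 hn) hp2 h1 hI'
      refine ⟨S2, T2, d1, d2, d3, d4, ?_, ?_⟩
      · rw [d5, edgesOf_cons, Sym2.eq_swap]
      · intro w hw hwv hw2
        apply d6 w hw hwv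
        simp only [flat, List.mem_cons, not_or] at hw2 ⊢
        exact ⟨hw2.2.1, hw2.1, hw2.2.2⟩

theorem carry_all [Fintype V] (s : ℕ) (hs : 15 * s ≤ Fintype.card V + 17) : ∀ (g : ℕ)
    (M : List (V × V)) (S : Multiset (List V)), M.length ≤ g * s → Good S → (flat M).Nodup →
    (∀ w ∈ flat M, w ∈ TN S) →
    ∃ S', Good S' ∧ Multiset.card S' ≤ Multiset.card S + g ∧
      par (TE S') = par (TE S) + par (edgesOf M) := by
  intro g
  induction g with
  | zero =>
    intro M S hM hS _ _
    have : M = [] := List.eq_nil_of_length_eq_zero (by omega)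
    subst this
    exact ⟨S, hS, le_rfl, by simp [edgesOf]⟩
  | succ g ih =>
    intro M S hM hS hn hN
    cases M with
    | nil => exact ⟨S, hS, by omega, by simp [edgesOf]⟩
    | cons p M =>
      have hs0 : s ≠ 0 := by
        rintro rfl
        simp at hM
      obtain ⟨s', rfl⟩ := Nat.exists_eq_succ_of_ne_zero hs0
      have hsplit : M = M.take s' ++ M.drop s' := (List.take_append_drop _ _).symm
      set I := M.take s' with hI
      set R := M.drop s' with hR
      have hIl : I.length ≤ s' := by simp [hI]
      have hRl : R.length ≤ g * (s' + 1) := by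
        simp only [hR, List.length_drop]
        simp only [List.length_cons, Nat.succ_eq_add_one] at hM
        have : (g + 1) * (s' + 1) = g * (s' + 1) + s' + 1 := by ring
        omega
      rw [hsplit, flat, flat_append] at hn hN
      have hn3 := hn
      simp only [List.nodup_cons, List.mem_append, List.mem_cons, not_or,
        List.nodup_append] at hn3
      obtain ⟨S1, T1, d1, d2, d3, d4, d5, d6⟩ := carry I p.2 [p.1] S hS
        (by
          simp only [List.cons_append, List.nil_append, List.nodup_cons, List.mem_cons, not_or]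
          exact ⟨⟨fun h => hn3.1.1 h.symm, hn3.2.1.1⟩, hn3.1.2.1, hn3.2.2.1⟩)
        (hN _ (by simp)) (fun w hw => hN w (by simp [hw]))
        (by
          right
          simp only [List.length_singleton, Nat.succ_eq_add_one] at hs ⊢
          omega)
      obtain ⟨S2, e1, e2, e3⟩ := ih R S1 hRl d1 hn3.2.2.2.1
        (fun w hw => d6 w (hN w (by simp [hw])) (fun h => hn3.2.1.2 (h ▸ hw))
          (fun h => hn3.2.2.2.2 w h w hw rfl))
      refine ⟨T1 ::ₘ S2, good_cons.2 ⟨⟨d3, d4⟩, e1⟩, by simp; omega, ?_⟩
      rw [TE_cons, par_add, e3, hsplit, edgesOf_cons, edgesOf_append, par_cons, par_add]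
      rw [E_cons_cons, E_single, par_cons, par_zero, Sym2.eq_swap] at d5
      linear_combination d5

end Pool.Agent.Work.MP_6b7c5d_co
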