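import Pool.Agent.Work.MP_6b7c5d_co.Lovasz

namespace Pool.Agent.Work.MP_6b7c5d_co

variable {V : Type*}

/-- All vertices of all members lie in `Z`. -/
def Supp (S : Multiset (List V)) (Z : V → Prop) : Prop := ∀ P ∈ S, ∀ v ∈ P, Z v

theorem supp_cons {P : List V} {S} {Z : V → Prop} :
    Supp (P ::ₘ S) Z ↔ (∀ v ∈ P, Z v) ∧ Supp S Z := by
  simp [Supp]

theorem orient_mem {P Q : List V} (h : Q = P ∨ Q = P.reverse) (v : V) : v ∈ Q ↔ v ∈ P := by
  rcases h with rfl | rfl <;> simp

theorem mem_of_mem_N {l : List V} {y : V} (h : y ∈ N l) : y ∈ l := by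
  obtain ⟨Q, hQ, hy⟩ := mem_N h
  exact (orient_mem hQ y).1 (List.mem_of_mem_head? hy)

/-- The far end of a rotated path keeps its predecessor of the pivot. -/
theorem rot_far (a : V) (B : List V) (w' x : V) (C B2 : List V) (w2 : V) (C2 : List V)
    (hn : (a :: B ++ w' :: x :: C).Nodup)
    (he : (a :: B ++ w' :: x :: C).reverse = B2 ++ w2 :: x :: C2) :
    (w' :: B.reverse ++ a :: x :: C).reverse = B2 ++ w2 :: x :: (a :: B ++ [w']) := by
  have he2 : C.reverse ++ x :: (w' :: B.reverse ++ [a]) = (B2 ++ [w2]) ++ x :: C2 := by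
    simpa using he
  have hn2 : (C.reverse ++ x :: (w' :: B.reverse ++ [a])).Nodup := by
    have := List.nodup_reverse.2 hn
    simpa using this
  have hx2 : x ∉ C2 := by
    rw [he2] at hn2
    exact (List.nodup_cons.1 (List.nodup_append.1 hn2).2.1).1
  have hx3 : x ∉ B2 ++ [w2] := by
    intro hx
    rw [he2] at hn2
    exact (List.nodup_append.1 hn2).2.2 x hx x (by simp) rfl
  have hC : C.reverse = B2 ++ [w2] :=
    ((List.append_cons_inj_of_notMem hx3 hx2).1 he2.symm).1.symm
  simp [hC]

theorem head?_append_cons_cons (B : List V) (w x : V) (C C' : List V) :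
    (B ++ w :: x :: C).head? = (B ++ w :: x :: C').head? := by
  cases B <;> simp

/-- A tracked path with an end at `x` and all vertices in `W`. -/
def Trk (S : Multiset (List V)) (x : V) (W : V → Prop) : Prop :=
  ∃ T ∈ S, x ∈ N T ∧ ∀ v ∈ T, W v

/-- Lovasz chain at the pivot `x` that is stopped at the first vertex outside `W`. -/
theorem chain_stop [DecidableEq V] (x : V) (W Z : V → Prop) (hxZ : Z x) (A : Finset V) :
    ∀ (S : Multiset (List V)) (y : V),
    Good S → (TE S).Nodup → y ∈ A → y ≠ x → s(y, x) ∉ TE S → Z y →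
    (∀ w ∈ A, (w = y ∨ s(w, x) ∈ TE S) → ¬ W w ∨ Fresh S x A w) → Trk S x W → Supp S Z →
    ∃ S', Good S' ∧ Multiset.card S' = Multiset.card S ∧ Trk S' x W ∧ Supp S' Z ∧
      ((TE S' = s(y, x) ::ₘ TE S ∧ TN S' + {y} = TN S + {x}) ∨
        ∃ w, ¬ W w ∧ Z w ∧ TE S' + {s(w, x)} = s(y, x) ::ₘ TE S ∧ TN S' + {y} = TN S + {w}) := by
  induction A using Finset.strongInduction with
  | H A ih =>
  intro S y hS hnd hyA hyx hy hyZ hF hT hZ
  rcases hF y hyA (Or.inl rfl) with hW | ⟨P, hP, Q, hQ, hQy, hQx⟩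
  · exact ⟨S, hS, rfl, hT, hZ, Or.inr ⟨y, hW, hyZ, by
      rw [add_comm, Multiset.singleton_add], rfl⟩⟩
  obtain ⟨S0, rfl⟩ := Multiset.exists_cons_of_mem hP
  obtain ⟨hE, hN, hnod⟩ := orient_props hQ
  rw [good_cons] at hS
  rw [supp_cons] at hZ
  have hQn : Q.Nodup := hnod hS.1.2
  have hQZ : ∀ v ∈ Q, Z v := fun v hv => hZ.1 v ((orient_mem hQ v).1 hv)
  rcases hQx with hQx | ⟨B, C, w', hQe, hw'⟩
  · cases Q with
    | nil => simp at hQy
    | cons a l =>
      simp only [List.head?_cons, Option.some.injEq] at hQy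
      subst hQy
      refine ⟨(x :: a :: l) ::ₘ S0, good_cons.2 ⟨⟨List.cons_ne_nil _ _,
        List.nodup_cons.2 ⟨hQx, hQn⟩⟩, hS.2⟩, by simp, ?_, ?_, Or.inl ⟨?_, ?_⟩⟩
      · obtain ⟨T, hTS, hTx, hTW⟩ := hT
        rcases Multiset.mem_cons.1 hTS with rfl | h
        · exact absurd ((orient_mem hQ x).2 (mem_of_mem_N hTx)) hQx
        · exact ⟨T, Multiset.mem_cons_of_mem h, hTx, hTW⟩
      · refine supp_cons.2 ⟨?_, hZ.2⟩
        intro v hv
        rcases List.mem_cons.1 hv with rfl | h
        · exact hxZ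
        · exact hQZ v h
      · rw [TE_cons, TE_cons, E_cons_cons, hE, Multiset.cons_add, Sym2.eq_swap]
      · rw [TN_cons, TN_cons, ← hN, add_right_comm, add_right_comm (N (a :: l)),
          N_head_change x a (a :: l) l (List.getLast?_cons_cons)]
  · have hw'E : s(w', x) ∈ TE (P ::ₘ S0) := by
      rw [TE_cons, ← hE, hQe]
      exact Multiset.mem_add.2 (Or.inl (mem_E_mid _ _ _ _))
    have hw'y : w' ≠ y := fun h => hy (h ▸ hw'E)
    cases B with
    | nil =>
      rw [hQe] at hQy
      simp at hQy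
      exact absurd hQy hw'y
    | cons a B =>
      have ha : a = y := by rw [hQe] at hQy; simpa using hQy
      subst ha
      obtain ⟨r1, r2, r3⟩ := rotate_props a B w' x C
      rw [← hQe] at r1 r2 r3
      set Q' := w' :: B.reverse ++ a :: x :: C with hQ'
      have hTE : TE (Q' ::ₘ S0) + {s(w', x)} = s(a, x) ::ₘ TE (P ::ₘ S0) := by
        rw [TE_cons, TE_cons, add_right_comm, r1, hE, ← Multiset.singleton_add]; abel
      have hnd2 : (TE (Q' ::ₘ S0) + {s(w', x)}).Nodup := by
        rw [hTE]; exact Multiset.nodup_cons.2 ⟨hy, hnd⟩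
      have hw'x : w' ≠ x := by
        rintro rfl
        rw [hQe] at hQn
        have := (List.nodup_append.1 hQn).2.1
        simp at this
      have hmem : ∀ e, e ∈ TE (Q' ::ₘ S0) → e = s(a, x) ∨ e ∈ TE (P ::ₘ S0) := by
        intro e he
        have : e ∈ TE (Q' ::ₘ S0) + {s(w', x)} := Multiset.mem_add.2 (Or.inl he)
        rw [hTE] at this
        exact Multiset.mem_cons.1 this
      obtain ⟨S', h1, hc, hT', hZ', h2⟩ := ih (A.erase a) (Finset.erase_ssubset hyA) (Q' ::ₘ S0) w'
        (good_cons.2 ⟨⟨by simp [hQ'], r3.nodup_iff.2 hQn⟩, hS.2⟩)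
        (Multiset.nodup_add.1 hnd2).1 (Finset.mem_erase.2 ⟨hw'y, hw'⟩) hw'x
        (fun h => by
          have := (Multiset.nodup_add.1 hnd2).2.2
          exact Multiset.disjoint_left.1 this h (Multiset.mem_singleton_self _))
        (hQZ w' (by rw [hQe]; simp))
        (by
          intro w hw hw2
          obtain ⟨hwa, hwA⟩ := Finset.mem_erase.1 hw
          have hwE : s(w, x) ∈ TE (P ::ₘ S0) := by
            rcases hw2 with rfl | hw2
            · exact hw'E
            · rcases hmem _ hw2 with h | h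
              · rw [Sym2.congr_left] at h
                exact absurd h hwa
              · exact h
          rcases hF w hwA (Or.inr hwE) with hW | ⟨P2, hP2, Q2, hQ2, hQ2w, hQ2x⟩
          · exact Or.inl hW
          right
          have hfix : ∀ B2 C2 w2, Q2 = B2 ++ w2 :: x :: C2 → w2 ∈ A → w2 ∈ A.erase a := by
            intro B2 C2 w2 he hw2A
            refine Finset.mem_erase.2 ⟨?_, hw2A⟩
            rintro rfl
            apply hy
            have := Multiset.mem_of_le (E_le_TE hP2)
              ((orient_props hQ2).1 ▸ he ▸ mem_E_mid B2 w2 x C2)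
            exact this
          rcases Multiset.mem_cons.1 hP2 with rfl | hP2'
          · have hQ2' : Q2 = Q ∨ Q2 = Q.reverse := by
              rcases hQ with rfl | rfl <;> rcases hQ2 with rfl | rfl <;> simp
            rcases hQ2' with rfl | rfl
            · rw [hQy] at hQ2w
              exact absurd (Option.some.inj hQ2w).symm hwa
            · have hxQ : x ∈ Q.reverse := by rw [hQe]; simp
              rcases hQ2x with h | ⟨B2, C2, w2, he, hw2A⟩
              · exact absurd hxQ h
              · have hw2 := hfix B2 C2 w2 he hw2A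
                have hr := rot_far a B w' x C B2 w2 C2 (hQe ▸ hQn) (hQe ▸ he)
                refine ⟨Q', Multiset.mem_cons_self _ _, Q'.reverse, Or.inr rfl, ?_,
                  Or.inr ⟨B2, a :: B ++ [w'], w2, hr, hw2⟩⟩
                rw [← hQ2w, he, hQ', hr]
                exact head?_append_cons_cons _ _ _ _ _
          · refine ⟨P2, Multiset.mem_cons_of_mem hP2', Q2, hQ2, hQ2w, ?_⟩
            rcases hQ2x with h | ⟨B2, C2, w2, he, hw2A⟩
            · exact Or.inl h
            · exact Or.inr ⟨B2, C2, w2, he, hfix B2 C2 w2 he hw2A⟩)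
        (by
          obtain ⟨T, hTS, hTx, hTW⟩ := hT
          rcases Multiset.mem_cons.1 hTS with rfl | h
          · refine ⟨Q', Multiset.mem_cons_self _ _, ?_, fun v hv =>
              hTW v ((orient_mem hQ v).1 (r3.mem_iff.1 hv))⟩
            have : x ∈ N Q' + {a} := by
              rw [r2, hN]; exact Multiset.mem_add.2 (Or.inl hTx)
            rcases Multiset.mem_add.1 this with h | h
            · exact h
            · exact absurd (Multiset.mem_singleton.1 h).symm hyx
          · exact ⟨T, Multiset.mem_cons_of_mem h, hTx, hTW⟩)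
        (supp_cons.2 ⟨fun v hv => hQZ v (r3.mem_iff.1 hv), hZ.2⟩)
      have h4 : TN (Q' ::ₘ S0) + {a} = TN (P ::ₘ S0) + {w'} := by
        rw [TN_cons, TN_cons, add_right_comm, r2, hN]; abel
      refine ⟨S', h1, by simpa using hc, hT', hZ', ?_⟩
      rcases h2 with ⟨h2, h3⟩ | ⟨w, hw, hwZ, h2, h3⟩
      · refine Or.inl ⟨?_, ?_⟩
        · rw [h2, ← hTE, ← Multiset.singleton_add, add_comm]
        · have h5 : TN S' + {a} + {w'} = TN (P ::ₘ S0) + {x} + {w'} := by
            rw [add_right_comm, h3, add_right_comm, h4]; abel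
          exact add_right_cancel h5
      · refine Or.inr ⟨w, hw, hwZ, ?_, ?_⟩
        · rw [h2, ← hTE, ← Multiset.singleton_add, add_comm]
        · have h5 : TN S' + {a} + {w'} = TN (P ::ₘ S0) + {w} + {w'} := by
            rw [add_right_comm, h3, add_right_comm, h4]; abel
          exact add_right_cancel h5

theorem fresh_of_mem [DecidableEq V] [Fintype V] {S : Multiset (List V)} (hS : Good S) {x w : V}
    (hwx : w ≠ x) (hwN : w ∈ TN S) : Fresh S x (Finset.univ.erase x) w := by
  obtain ⟨P, hP, hw3⟩ := mem_TN.1 hwN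
  obtain ⟨Q, hQ, hQw⟩ := mem_N hw3
  refine ⟨P, hP, Q, hQ, hQw, ?_⟩
  by_cases hx : x ∈ Q
  · right
    obtain ⟨B, C, rfl⟩ := List.append_of_mem hx
    rcases List.eq_nil_or_concat B with rfl | ⟨B', w', rfl⟩
    · simp at hQw
      exact absurd hQw.symm hwx
    · refine ⟨B', C, w', by simp, ?_⟩
      have hn := (orient_props hQ).2.2 (hS P hP).2
      rw [Finset.mem_erase]
      refine ⟨?_, Finset.mem_univ _⟩
      rintro rfl
      exact (List.nodup_append.1 hn).2.2 w' (by simp) w' (by simp) rfl
  · exact Or.inl hx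

/-- A token path: every vertex of it is an end of some path of the system. -/
def Tok (S : Multiset (List V)) : Prop := ∃ T ∈ S, ∀ v ∈ T, v ∈ TN S

/-- A missing edge at the end `a` of a token path can always be inserted. -/
theorem resolve [DecidableEq V] [Fintype V] (Z : V → Prop) (S : Multiset (List V)) (a b : V)
    (D : Multiset V) (T : List V) (hS : Good S) (hnd : (TE S).Nodup) (hba : b ≠ a)
    (hb : s(b, a) ∉ TE S) (hZ : Supp S Z) (hbZ : Z b) (hT : T ∈ S) (haT : a ∈ N T)
    (hD : TN S = D + {a} + {b}) (hTD : ∀ v ∈ T, v ∈ D) :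
    ∃ S', Good S' ∧ Multiset.card S' = Multiset.card S ∧ Supp S' Z ∧
      TE S' = s(b, a) ::ₘ TE S ∧ Tok S' := by
  have haZ : Z a := hZ T hT a (mem_of_mem_N haT)
  obtain ⟨S', h1, hc, hT', hZ', h2⟩ := chain_stop a (fun v => v ∈ T) Z haZ (Finset.univ.erase a) S b
    hS hnd (by simp [hba]) hba hb hbZ
    (by
      intro w hw _
      by_cases hwT : w ∈ T
      · refine Or.inr (fresh_of_mem hS (Finset.mem_erase.1 hw).1 ?_)
        rw [hD]
        simp [hTD w hwT]
      · exact Or.inl hwT)
    ⟨T, hT, haT, fun v hv => hv⟩ hZ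
  obtain ⟨T', hT'S, haT', hT'W⟩ := hT'
  rcases h2 with ⟨h2, h3⟩ | ⟨w, hw, hwZ, h2, h3⟩
  · refine ⟨S', h1, hc, hZ', h2, T', hT'S, fun v hv => ?_⟩
    have h4 : TN S' = D + {a} + {a} := by
      apply add_right_cancel (b := ({b} : Multiset V))
      rw [h3, hD]; abel
    rw [h4]
    simp [hTD v (hT'W v hv)]
  · obtain ⟨S0, rfl⟩ := Multiset.exists_cons_of_mem hT'S
    obtain ⟨Q, hQ, hQa⟩ := mem_N haT'
    obtain ⟨hE, hN, hnod⟩ := orient_props hQ
    rw [good_cons] at h1
    rw [supp_cons] at hZ'
    cases Q with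
    | nil => simp at hQa
    | cons a' l =>
      simp only [List.head?_cons, Option.some.injEq] at hQa
      subst hQa
      have hwQ : w ∉ a' :: l := fun h => hw (hT'W w ((orient_mem hQ w).1 h))
      have h5 : TN ((w :: a' :: l) ::ₘ S0) = D + {w} + {w} := by
        apply add_right_cancel (b := ({a'} + {b} : Multiset V))
        have := N_head_change w a' (a' :: l) l (List.getLast?_cons_cons)
        rw [TN_cons, ← hN, hD] at h3
        rw [TN_cons]
        calc N (w :: a' :: l) + TN S0 + ({a'} + {b})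
            = (N (w :: a' :: l) + {a'}) + TN S0 + {b} := by abel
          _ = (N (a' :: l) + TN S0 + {b}) + {w} := by rw [this]; abel
          _ = _ := by rw [h3]; abel
      refine ⟨(w :: a' :: l) ::ₘ S0, good_cons.2 ⟨⟨List.cons_ne_nil _ _,
        List.nodup_cons.2 ⟨hwQ, hnod h1.1.2⟩⟩, h1.2⟩, by simpa using hc, ?_, ?_,
        w :: a' :: l, Multiset.mem_cons_self _ _, ?_⟩
      · refine supp_cons.2 ⟨?_, hZ'.2⟩
        intro v hv
        rcases List.mem_cons.1 hv with rfl | h
        · exact hwZ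
        · exact hZ'.1 v ((orient_mem hQ v).1 h)
      · rw [← h2, TE_cons, TE_cons, E_cons_cons, hE, ← Multiset.singleton_add]; abel
      · intro v hv
        rw [h5]
        rcases List.mem_cons.1 hv with rfl | h
        · simp
        · simp [hTD v (hT'W v ((orient_mem hQ v).1 h))]

end Pool.Agent.Work.MP_6b7c5d_co
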