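import Pool.Agent.Work.MP_6b7c5d_co.Move

namespace Pool.Agent.Work.MP_6b7c5d_co

variable {V : Type*} [DecidableEq V] [Fintype V]

/-- Consecutive members of the list are adjacent. -/
def Ch (H : Multiset (Sym2 V)) (L : List V) : Prop := L.IsChain fun a b => s(a, b) ∈ H

omit [DecidableEq V] [Fintype V] in
theorem Ch.keep {H H' : Multiset (Sym2 V)} {L : List V} {p : V → Prop} (h : Ch H L)
    (hp : ∀ v ∈ L, p v) (hH : ∀ a b, p a → p b → s(a, b) ∈ H → s(a, b) ∈ H') : Ch H' L :=
  List.IsChain.imp_of_mem_imp (fun a b ha hb hab => hH a b (hp a ha) (hp b hb) hab) h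

omit [DecidableEq V] [Fintype V] in
theorem Ch.tail {H : Multiset (Sym2 V)} {a : V} {L : List V} (h : Ch H (a :: L)) : Ch H L :=
  List.IsChain.tail h

omit [DecidableEq V] [Fintype V] in
theorem Ch.head {H : Multiset (Sym2 V)} {a b : V} {L : List V} (h : Ch H (a :: b :: L)) :
    s(a, b) ∈ H := (List.isChain_cons_cons.1 h).1

/-- The state of the downward scan in which `x` is even. -/
def MX (k : ℕ) (K P : V → Prop) (x : V) (U M : List V) : Prop :=
  ∀ H, Gr H → od H x = 0 → Ch H M → Ch H U → (∀ v, v ∈ M ∨ v ∈ U → od H v = 1) →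
    (∀ w, s(w, x) ∈ H → w ∈ M ∨ w ∈ U) →
    (∀ m ∈ M, ∀ w, s(w, m) ∈ H → od H w = 1 ∨ w = x ∨ P w) → Win H k True K P

/-- The state of the downward scan in which `x` is odd and `m` is even. -/
def MW (k : ℕ) (K P : V → Prop) (x : V) (U M : List V) (m : V) : Prop :=
  ∀ H, Gr H → od H x = 1 → od H m = 0 → Ch H (m :: M) → Ch H U →
    (∀ v, v ∈ M ∨ v ∈ U → od H v = 1) →
    (∀ w, s(w, x) ∈ H → w = m ∨ w ∈ M ∨ w ∈ U) →
    (∀ m' ∈ M, ∀ w, s(w, m') ∈ H → od H w = 1 ∨ w = m ∨ P w) → Win H k True K P

theorem scan (k : ℕ) (K P : V → Prop) (x : V) (U : List V) (hKx : K x) (hPx : ¬ P x)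
    (hxU : x ∉ U)
    (hcont : ∀ H, Gr H → Ch H U → (∀ v ∈ U, od H v = 1) → (∀ w, s(w, x) ∈ H → w ∈ U) →
      Win H k True K P) :
    ∀ M : List V, M.Nodup → x ∉ M → (∀ m ∈ M, m ∉ U ∧ K m ∧ ¬ P m) →
      MX k K P x U M ∧ ∀ m, m ≠ x → m ∉ M → m ∉ U → ¬ P m → MW k K P x U M m := by
  have hin : ∀ (M : List V) (m : V), x ∉ M → m ≠ x → m ∉ M → m ∉ U → ¬ P m → MX k K P x U M →
      ∀ H, Gr H → od H x = 1 → od H m = 0 → Ch H (m :: M) → Ch H U →
      (∀ v, v ∈ M ∨ v ∈ U → od H v = 1) →
      (∀ w, s(w, x) ∈ H → w = m ∨ w ∈ M ∨ w ∈ U) →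
      (∀ m' ∈ M, ∀ w, s(w, m') ∈ H → od H w = 1 ∨ w = m ∨ P w) → s(m, x) ∈ H →
      Win H k True K P := by
    intro M m hxM hmx hmM hmU hPm hX H hH hx hm hM hU hodd hNx hNM hadj
    obtain ⟨H', g1, g2, g3, g4, g5, g6, g7, g8⟩ := mv_one hH x m hadj
    rw [hm, zero_add] at g6
    have hodd' : ∀ v, v ∈ M ∨ v ∈ U → od H' v = 1 := by
      intro v hv
      rw [g5 v, hodd v hv]
      · rintro rfl
        exact hv.elim hxM hxU
      · rintro rfl
        exact hv.elim hmM hmU
    refine g8 k True K P P hKx ?_ ?_ (hX H' g1 (by rw [g7, hx]; decide)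
      (hM.tail.keep (p := (· ≠ m)) (fun v hv h => hmM (h ▸ hv)) g4)
      (hU.keep (p := (· ≠ m)) (fun v hv h => hmU (h ▸ hv)) g4) hodd' ?_ ?_)
    · intro w hw
      rcases hNx w hw with rfl | h
      · exact Or.inl g6
      · exact Or.inl (hodd' w h)
    · exact fun v hv => ⟨hv, fun h => hPx (h ▸ hv), fun h => hPm (h ▸ hv)⟩
    · intro w hw
      rcases hNx w (g2 _ hw) with rfl | h
      · exact absurd hw g3
      · exact h
    · intro m' hm' w hw
      by_cases h1 : w = x
      · exact Or.inr (Or.inl h1)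
      by_cases h2 : w = m
      · exact Or.inl (h2 ▸ g6)
      rcases hNM m' hm' w (g2 _ hw) with h | h | h
      · exact Or.inl ((g5 w h1 h2).trans h)
      · exact absurd h h2
      · exact Or.inr (Or.inr h)
  intro M
  induction M with
  | nil =>
    intro _ hxM _
    have hX : MX k K P x U [] := fun H hH _ _ hU hodd hNx _ =>
      hcont H hH hU (fun v hv => hodd v (Or.inr hv)) (fun w hw => by simpa using hNx w hw)
    refine ⟨hX, fun m hmx hmM hmU hPm H hH hx hm hM hU hodd hNx hNM => ?_⟩
    by_cases hadj : s(m, x) ∈ H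
    · exact hin [] m hxM hmx hmM hmU hPm hX H hH hx hm hM hU hodd hNx hNM hadj
    · refine hcont H hH hU (fun v hv => hodd v (Or.inr hv)) (fun w hw => ?_)
      rcases hNx w hw with rfl | h | h
      · exact absurd hw hadj
      · simp at h
      · exact h
  | cons a M ih =>
    intro hnd hxM hall
    rw [List.nodup_cons] at hnd
    have hxM' : x ∉ M := fun h => hxM (List.mem_cons_of_mem _ h)
    have hax : a ≠ x := fun h => hxM (h ▸ List.mem_cons_self)
    obtain ⟨haU, hKa, hPa⟩ := hall a List.mem_cons_self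
    obtain ⟨i1, i2⟩ := ih hnd.2 hxM' (fun m hm => hall m (List.mem_cons_of_mem _ hm))
    have i3 := i2 a hax hnd.1 haU hPa
    have hX : MX k K P x U (a :: M) := by
      intro H hH hx hM hU hodd hNx hNM
      have hodd1 : ∀ v, v ∈ M ∨ v ∈ U → od H v = 1 := fun v hv =>
        hodd v (hv.imp (List.mem_cons_of_mem _) id)
      by_cases hadj : s(x, a) ∈ H
      · obtain ⟨H', g1, g2, g3, g4, g5, g6, g7, g8⟩ := mv_one hH a x hadj
        rw [hx, zero_add] at g6
        have hn : ∀ m ∈ a :: M, ∀ w, s(w, m) ∈ H → od H' w = 1 ∨ w = a ∨ P w := by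
          intro m hm w hw
          by_cases h1 : w = x
          · exact Or.inl (h1 ▸ g6)
          by_cases h2 : w = a
          · exact Or.inr (Or.inl h2)
          rcases hNM m hm w hw with h | h | h
          · exact Or.inl ((g5 w h2 h1).trans h)
          · exact absurd h h1
          · exact Or.inr (Or.inr h)
        refine g8 k True K P P hKa ?_ ?_ (i3 H' g1 g6
          (by rw [g7, hodd a (Or.inl List.mem_cons_self)]; decide)
          (hM.keep (p := (· ≠ x)) (fun v hv h => hxM (h ▸ hv)) g4)
          (hU.keep (p := (· ≠ x)) (fun v hv h => hxU (h ▸ hv)) g4) ?_ ?_ ?_)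
        · intro w hw
          rcases hn a List.mem_cons_self w hw with h | h | h
          · exact Or.inl h
          · exact absurd h (hH.ne hw)
          · exact Or.inr h
        · exact fun v hv => ⟨hv, fun h => hPa (h ▸ hv), fun h => hPx (h ▸ hv)⟩
        · intro v hv
          rw [g5 v, hodd1 v hv]
          · rintro rfl
            exact hv.elim hnd.1 haU
          · rintro rfl
            exact hv.elim hxM' hxU
        · intro w hw
          rcases hNx w (g2 _ hw) with h | h
          · exact (List.mem_cons.1 h).imp id Or.inl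
          · exact Or.inr (Or.inr h)
        · exact fun m hm w hw => hn m (List.mem_cons_of_mem _ hm) w (g2 _ hw)
      · refine i1 H hH hx hM.tail hU hodd1 ?_ (fun m hm => hNM m (List.mem_cons_of_mem _ hm))
        intro w hw
        rcases hNx w hw with h | h
        · rcases List.mem_cons.1 h with rfl | h
          · exact absurd (Sym2.eq_swap ▸ hw) hadj
          · exact Or.inl h
        · exact Or.inr h
    refine ⟨hX, fun m hmx hmM hmU hPm H hH hx hm hM hU hodd hNx hNM => ?_⟩
    by_cases hadj : s(m, x) ∈ H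
    · exact hin _ m hxM hmx hmM hmU hPm hX H hH hx hm hM hU hodd hNx hNM hadj
    · obtain ⟨H', g1, g2, g3, g4, g5, g6, g7, g8⟩ := mv_one hH a m hM.head
      rw [hm, zero_add] at g6
      have hn : ∀ m' ∈ a :: M, ∀ w, s(w, m') ∈ H → od H' w = 1 ∨ w = a ∨ P w := by
        intro m' hm' w hw
        by_cases h1 : w = m
        · exact Or.inl (h1 ▸ g6)
        by_cases h2 : w = a
        · exact Or.inr (Or.inl h2)
        rcases hNM m' hm' w hw with h | h | h
        · exact Or.inl ((g5 w h2 h1).trans h)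
        · exact absurd h h1
        · exact Or.inr (Or.inr h)
      refine g8 k True K P P hKa ?_ ?_ (i3 H' g1 ((g5 x hax.symm hmx.symm).trans hx)
        (by rw [g7, hodd a (Or.inl List.mem_cons_self)]; decide)
        (hM.tail.keep (p := (· ≠ m)) (fun v hv h => hmM (h ▸ hv)) g4)
        (hU.keep (p := (· ≠ m)) (fun v hv h => hmU (h ▸ hv)) g4) ?_ ?_ ?_)
      · intro w hw
        rcases hn a List.mem_cons_self w hw with h | h | h
        · exact Or.inl h
        · exact absurd h (hH.ne hw)
        · exact Or.inr h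
      · exact fun v hv => ⟨hv, fun h => hPa (h ▸ hv), fun h => hPm (h ▸ hv)⟩
      · intro v hv
        rw [g5 v, hodd v (hv.imp (List.mem_cons_of_mem _) id)]
        · rintro rfl
          exact hv.elim hnd.1 haU
        · rintro rfl
          exact hv.elim (fun h => hmM (List.mem_cons_of_mem _ h)) hmU
      · intro w hw
        rcases hNx w (g2 _ hw) with rfl | h | h
        · exact absurd (g2 _ hw) hadj
        · exact (List.mem_cons.1 h).imp id Or.inl
        · exact Or.inr (Or.inr h)
      · exact fun m' hm' w hw => hn m' (List.mem_cons_of_mem _ hm') w (g2 _ hw)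

theorem base {H : Multiset (Sym2 V)} (hH : Gr H) (x : V) (hx : ∀ w, s(w, x) ∉ H) (t : V)
    (K P : V → Prop) (hK : K t) (hP : ∀ v, P v → v = t) :
    Win H ((Fintype.card V - 1) / 2 + 1) True K P :=
  add_triv t K P hK hP (dec_iso hH x hx)

theorem last (K : V → Prop) (x : V) (hKx : K x) : ∀ (M : List V) (H : Multiset (Sym2 V)), Gr H →
    M.Nodup → x ∉ M → (∀ m ∈ M, K m) → Ch H M → (∀ v ∈ M, od H v = 1) →
    (∀ w, s(w, x) ∈ H → w ∈ M) → (∀ m ∈ M, ∀ w, s(w, m) ∈ H → od H w = 1) →
    Win H ((Fintype.card V - 1) / 2 + 1) True K (fun _ => False) := by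
  intro M
  induction M with
  | nil =>
    intro H hH _ _ _ _ _ hNx _
    exact base hH x (fun w hw => by simpa using hNx w hw) x K _ hKx (fun _ => False.elim)
  | cons a M ih =>
    intro H hH hnd hxM hK hM hodd hNx hNM
    rw [List.nodup_cons] at hnd
    have hxM' : x ∉ M := fun h => hxM (List.mem_cons_of_mem _ h)
    have hax : a ≠ x := fun h => hxM (h ▸ List.mem_cons_self)
    by_cases hadj : s(a, x) ∈ H
    · obtain ⟨H', g1, g2, g3, g4, g5, g6, g7, g8⟩ := mv_one hH x a hadj
      have hx : od H x = 1 := hNM a List.mem_cons_self x (Sym2.eq_swap ▸ hadj)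
      have hodd' : ∀ v ∈ M, od H' v = 1 := fun v hv =>
        (g5 v (fun h => hxM' (h ▸ hv)) (fun h => hnd.1 (h ▸ hv))).trans
          (hodd v (List.mem_cons_of_mem _ hv))
      have hs := (scan ((Fintype.card V - 1) / 2 + 1) K (· = a) x [] hKx hax.symm (by simp)
        (fun H hH _ _ hNx => base hH x (fun w hw => by simpa using hNx w hw) a K _
          (hK a List.mem_cons_self) (fun _ h => h))
        M hnd.2 hxM' (fun m hm => ⟨by simp, hK m (List.mem_cons_of_mem _ hm),
          fun h => hnd.1 (h ▸ hm)⟩)).1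
      refine g8 _ True K _ (· = a) hKx ?_ (fun _ => False.elim) (hs H' g1 (by rw [g7, hx]; decide)
        (hM.tail.keep (p := (· ≠ a)) (fun v hv h => hnd.1 (h ▸ hv)) g4) List.IsChain.nil
        (fun v hv => hodd' v (by simpa using hv)) ?_ ?_)
      · intro w hw
        rcases List.mem_cons.1 (hNx w hw) with h | h
        · exact Or.inr h
        · exact Or.inl (hodd' w h)
      · intro w hw
        rcases List.mem_cons.1 (hNx w (g2 _ hw)) with rfl | h
        · exact absurd hw g3
        · exact Or.inl h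
      · intro m hm w hw
        by_cases h1 : w = x
        · exact Or.inr (Or.inl h1)
        by_cases h2 : w = a
        · exact Or.inr (Or.inr h2)
        exact Or.inl ((g5 w h1 h2).trans (hNM m (List.mem_cons_of_mem _ hm) w (g2 _ hw)))
    · refine ih H hH hnd.2 hxM' (fun m hm => hK m (List.mem_cons_of_mem _ hm)) hM.tail
        (fun v hv => hodd v (List.mem_cons_of_mem _ hv)) ?_
        (fun m hm => hNM m (List.mem_cons_of_mem _ hm))
      intro w hw
      rcases List.mem_cons.1 (hNx w hw) with rfl | h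
      · exact absurd hw hadj
      · exact h

theorem up (K : V → Prop) (x : V) (hKx : K x) : ∀ (U M : List V) (H : Multiset (Sym2 V)), Gr H →
    U.Nodup → M.Nodup → x ∉ U → x ∉ M → (∀ m ∈ M, m ∉ U) → (∀ v, v ∈ M ∨ v ∈ U → K v) →
    Ch H U → Ch H M → (∀ u ∈ U.head?, Ch H (u :: M)) → (∀ v, v ∈ M ∨ v ∈ U → od H v = 1) →
    (∀ w, s(w, x) ∈ H → w ∈ M ∨ w ∈ U) → (∀ m ∈ M, ∀ w, s(w, m) ∈ H → od H w = 1) →
    Win H ((Fintype.card V - 1) / 2 + 1) True K (fun _ => False) := by
  intro U
  induction U with
  | nil =>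
    intro M H hH _ hM _ hxM _ hK _ hc _ hodd hNx hNM
    exact last K x hKx M H hH hM hxM (fun m hm => hK m (Or.inl hm)) hc
      (fun m hm => hodd m (Or.inl hm)) (fun w hw => by simpa using hNx w hw) hNM
  | cons u U ih =>
    intro M H hH hU hM hxU hxM hMU hK hcU hcM hcu hodd hNx hNM
    rw [List.nodup_cons] at hU
    have hxU' : x ∉ U := fun h => hxU (List.mem_cons_of_mem _ h)
    have hux : u ≠ x := fun h => hxU (h ▸ List.mem_cons_self)
    have huM : u ∉ M := fun h => hMU u h List.mem_cons_self
    have hMU' : ∀ m ∈ M, m ∉ U := fun m hm h => hMU m hm (List.mem_cons_of_mem _ h)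
    have hcu' : Ch H (u :: M) := hcu u rfl
    have hu : od H u = 1 := hodd u (Or.inr List.mem_cons_self)
    have hcont : ∀ H, Gr H → Ch H U → (∀ v ∈ U, od H v = 1) → (∀ w, s(w, x) ∈ H → w ∈ U) →
        Win H ((Fintype.card V - 1) / 2 + 1) True K (fun _ => False) := by
      intro H hH hc hodd hNx
      exact ih [] H hH hU.2 List.nodup_nil hxU' (by simp) (by simp)
        (fun v hv => hK v (Or.inr (List.mem_cons_of_mem _ (by simpa using hv)))) hc
        List.IsChain.nil (fun u _ => List.IsChain.singleton u)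
        (fun v hv => hodd v (by simpa using hv)) (fun w hw => Or.inr (hNx w hw)) (by simp)
    obtain ⟨H', g1, g2, g3, g4, g5, -, g7⟩ := mv_even hH u
    refine g7 _ True K (hK u (Or.inr List.mem_cons_self)) ?_
    have hodd' : ∀ v, v ∈ M ∨ v ∈ U → od H' v = 1 := by
      intro v hv
      refine g5 v ?_ (hodd v (hv.imp id (List.mem_cons_of_mem _)))
      rintro rfl
      exact hv.elim huM hU.1
    have hcU2 : Ch H' (u :: U) := hcU.keep (fun v hv => hodd v (Or.inr hv)) g4
    have hcu2 : Ch H' (u :: M) := hcu'.keep (fun v hv => by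
      rcases List.mem_cons.1 hv with rfl | h
      · exact hu
      · exact hodd v (Or.inl h)) g4
    have hNx' : ∀ w, s(w, x) ∈ H' → w = u ∨ w ∈ M ∨ w ∈ U := by
      intro w hw
      rcases hNx w (g2 _ hw) with h | h
      · exact Or.inr (Or.inl h)
      · exact (List.mem_cons.1 h).imp id Or.inr
    have hNM' : ∀ m ∈ u :: M, ∀ w, s(w, m) ∈ H' → od H' w = 1 ∨ w = u := by
      intro m hm w hw
      by_cases h : w = u
      · exact Or.inr h
      rcases List.mem_cons.1 hm with rfl | hm
      · exact Or.inl (g5 w h (g3 w hw))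
      · exact Or.inl (g5 w h (hNM m hm w (g2 _ hw)))
    rcases z2_cases (od H' u) with h0 | h1
    · rcases z2_cases (od H' x) with hx | hx
      · refine hcont H' g1 hcU2.tail (fun v hv => hodd' v (Or.inr hv)) (fun w hw => ?_)
        have hw' : w ∉ u :: M := by
          intro hm
          rcases hNM' w hm x (Sym2.eq_swap ▸ hw) with h | h
          · rw [hx] at h
            exact absurd h (by decide)
          · exact hux h.symm
        rcases hNx' w hw with rfl | h | h
        · exact absurd List.mem_cons_self hw'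
        · exact absurd (List.mem_cons_of_mem _ h) hw'
        · exact h
      · exact (scan _ K _ x U hKx id hxU' hcont M hM hxM
          (fun m hm => ⟨hMU' m hm, hK m (Or.inl hm), id⟩)).2 u hux huM hU.1 id H' g1 hx h0 hcu2
          hcU2.tail hodd' hNx'
          (fun m hm w hw => (hNM' m (List.mem_cons_of_mem _ hm) w hw).imp id Or.inl)
    · refine ih (u :: M) H' g1 hU.2 (List.nodup_cons.2 ⟨huM, hM⟩) hxU' ?_ ?_ ?_ hcU2.tail hcu2 ?_ ?_
        ?_ ?_
      · intro h
        rcases List.mem_cons.1 h with h | h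
        · exact hux h.symm
        · exact hxM h
      · intro m hm
        rcases List.mem_cons.1 hm with rfl | h
        · exact hU.1
        · exact hMU' m h
      · intro v hv
        rcases hv with h | h
        · rcases List.mem_cons.1 h with rfl | h
          · exact hK v (Or.inr List.mem_cons_self)
          · exact hK v (Or.inl h)
        · exact hK v (Or.inr (List.mem_cons_of_mem _ h))
      · intro u' hu'
        cases U with
        | nil => simp at hu'
        | cons b U =>
          have : b = u' := by simpa using hu'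
          subst this
          exact List.isChain_cons_cons.2 ⟨Sym2.eq_swap ▸ hcU2.head, hcu2⟩
      · intro v hv
        rcases hv with h | h
        · rcases List.mem_cons.1 h with rfl | h
          · exact h1
          · exact hodd' v (Or.inl h)
        · exact hodd' v (Or.inr h)
      · intro w hw
        rcases hNx' w hw with rfl | h | h
        · exact Or.inl List.mem_cons_self
        · exact Or.inl (List.mem_cons_of_mem _ h)
        · exact Or.inr h
      · intro m hm w hw
        rcases hNM' m hm w hw with h | rfl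
        · exact h
        · exact h1

theorem max_chain (H : Multiset (Sym2 V)) (hH : Gr H) (K : V → Prop) (d : ℕ) :
    ∀ (x : V) (U : List V), Fintype.card V ≤ U.length + d → (x :: U).Nodup → Ch H (x :: U) →
    (∀ v ∈ x :: U, K v) → ∃ (x : V) (U : List V), (x :: U).Nodup ∧ Ch H (x :: U) ∧
      (∀ v ∈ x :: U, K v) ∧ ∀ w, K w → s(w, x) ∈ H → w ∈ U := by
  induction d with
  | zero =>
    intro x U h hnd _ _
    have := hnd.length_le_card
    simp at this
    omega
  | succ d ih =>
    intro x U h hnd hc hK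
    by_cases h1 : ∃ w, K w ∧ s(w, x) ∈ H ∧ w ∉ U
    · obtain ⟨w, w1, w2, w3⟩ := h1
      refine ih w (x :: U) (by simp; omega) (List.nodup_cons.2 ⟨?_, hnd⟩)
        (List.isChain_cons_cons.2 ⟨w2, hc⟩) ?_
      · intro h2
        rcases List.mem_cons.1 h2 with h2 | h2
        · exact hH.ne w2 h2
        · exact w3 h2
      · intro v hv
        rcases List.mem_cons.1 hv with rfl | h2
        · exact w1
        · exact hK v h2
    · refine ⟨x, U, hnd, hc, hK, fun w w1 w2 => ?_⟩
      by_contra w3
      exact h1 ⟨w, w1, w2, w3⟩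

/-- Every graph is a sum over `F_2` of at most `(n - 1) / 2 + 1` paths. -/
theorem cover_full (x0 : V) (H : Multiset (Sym2 V)) (hH : Gr H) :
    ∃ S, Good S ∧ Multiset.card S ≤ (Fintype.card V - 1) / 2 + 1 ∧ par (TE S) = par H := by
  by_cases h : ∃ y, od H y = 1
  · obtain ⟨y, hy⟩ := h
    obtain ⟨x, U, hnd, hc, hK, hmax⟩ := max_chain H hH (fun v => od H v = 1) (Fintype.card V) y []
      (by simp) (by simp) (List.IsChain.singleton y) (by simpa using hy)
    rw [List.nodup_cons] at hnd
    have hKx := hK x List.mem_cons_self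
    have hKU : ∀ v ∈ U, od H v = 1 := fun v hv => hK v (List.mem_cons_of_mem _ hv)
    obtain ⟨H', g1, g2, g3, g4, g5, -, g7⟩ := mv_even hH x
    refine finish hH (K := fun v => od H v = 1) (P := fun _ => False) (fun v h => Or.inl h)
      (g7 _ True _ hKx ?_)
    exact up _ x hKx U [] H' g1 hnd.2 List.nodup_nil hnd.1 (by simp) (by simp)
      (fun v hv => hKU v (by simpa using hv)) (hc.tail.keep hKU g4) List.IsChain.nil
      (fun u _ => List.IsChain.singleton u)
      (fun v hv => by
        have hv' : v ∈ U := by simpa using hv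
        exact g5 v (fun h => hnd.1 (h ▸ hv')) (hKU v hv'))
      (fun w hw => Or.inr (hmax w (g3 w hw) (g2 _ hw))) (by simp)
  · obtain ⟨H', g1, g2, g3, -, -, -, g7⟩ := mv_even hH x0
    exact finish hH (K := (· = x0)) (P := (· = x0)) (fun v h => Or.inr h)
      (add_triv x0 _ _ rfl (fun _ h => h)
        (g7 _ False _ trivial (dec_iso g1 x0 (fun w hw => h ⟨w, g3 w hw⟩))))

end Pool.Agent.Work.MP_6b7c5d_co
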