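import Pool.Agent.Work.MP_6b7c5d_co.Basic
import Mathlib.Algebra.BigOperators.Fin
import Mathlib.Algebra.BigOperators.Pi

namespace Pool.Agent.Work.MP_6b7c5d_co

variable {V : Type*}

/-- There is an end at `w` whose path avoids `x` or reaches `x` through a vertex of `A`. -/
def Fresh (S : Multiset (List V)) (x : V) (A : Finset V) (w : V) : Prop :=
  ∃ P ∈ S, ∃ Q, (Q = P ∨ Q = P.reverse) ∧ Q.head? = some w ∧
    (x ∉ Q ∨ ∃ B C w', Q = B ++ w' :: x :: C ∧ w' ∈ A)

theorem mem_E_mid (B : List V) (w x : V) (C : List V) : s(w, x) ∈ E (B ++ w :: x :: C) := by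
  rw [E_mid]; exact Multiset.mem_cons_self _ _

theorem chain [DecidableEq V] (x : V) (A : Finset V) : ∀ (S : Multiset (List V)) (y : V),
    Good S → (TE S).Nodup → y ∈ A → y ≠ x → s(y, x) ∉ TE S →
    (∀ w ∈ A, (w = y ∨ s(w, x) ∈ TE S) → Fresh S x A w) →
    ∃ S', Good S' ∧ TE S' = s(y, x) ::ₘ TE S ∧ TN S' + {y} = TN S + {x} := by
  induction A using Finset.strongInduction with
  | H A ih =>
  intro S y hS hnd hyA hyx hy hF
  obtain ⟨P, hP, Q, hQ, hQy, hQx⟩ := hF y hyA (Or.inl rfl)
  obtain ⟨S0, rfl⟩ := Multiset.exists_cons_of_mem hP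
  obtain ⟨hE, hN, hnod⟩ := orient_props hQ
  rw [good_cons] at hS
  have hQn : Q.Nodup := hnod hS.1.2
  rcases hQx with hQx | ⟨B, C, w', hQe, hw'⟩
  · cases Q with
    | nil => simp at hQy
    | cons a l =>
      simp only [List.head?_cons, Option.some.injEq] at hQy
      subst hQy
      refine ⟨(x :: a :: l) ::ₘ S0, good_cons.2 ⟨⟨List.cons_ne_nil _ _,
        List.nodup_cons.2 ⟨hQx, hQn⟩⟩, hS.2⟩, ?_, ?_⟩
      · rw [TE_cons, TE_cons, E_cons_cons, hE, Multiset.cons_add, Sym2.eq_swap]
      · rw [TN_cons, TN_cons, ← hN, add_right_comm, add_right_comm (N (a :: l)),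
          N_head_change x a (a :: l) l (List.getLast?_cons_cons)]
  · have hw'E : s(w', x) ∈ TE (P ::ₘ S0) := by
      rw [TE_cons, ← hE, hQe]
      exact Multiset.mem_add.2 (Or.inl (mem_E_mid _ _ _ _))
    have hw'y : w' ≠ y := fun h => hy (h ▸ hw'E)
    cases B with
    | nil =>
      rw [hQe] at hQy
      simp at hQy
      exact absurd hQy hw'y
    | cons a B =>
      have ha : a = y := by rw [hQe] at hQy; simpa using hQy
      subst ha
      obtain ⟨r1, r2, r3⟩ := rotate_props a B w' x C
      rw [← hQe] at r1 r2 r3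
      set Q' := w' :: B.reverse ++ a :: x :: C with hQ'
      have hTE : TE (Q' ::ₘ S0) + {s(w', x)} = s(a, x) ::ₘ TE (P ::ₘ S0) := by
        rw [TE_cons, TE_cons, add_right_comm, r1, hE, ← Multiset.singleton_add]; abel
      have hnd2 : (TE (Q' ::ₘ S0) + {s(w', x)}).Nodup := by
        rw [hTE]; exact Multiset.nodup_cons.2 ⟨hy, hnd⟩
      have hw'x : w' ≠ x := by
        rintro rfl
        rw [hQe] at hQn
        have := (List.nodup_append.1 hQn).2.1
        simp at this
      have hmem : ∀ e, e ∈ TE (Q' ::ₘ S0) → e = s(a, x) ∨ e ∈ TE (P ::ₘ S0) := by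
        intro e he
        have : e ∈ TE (Q' ::ₘ S0) + {s(w', x)} := Multiset.mem_add.2 (Or.inl he)
        rw [hTE] at this
        exact Multiset.mem_cons.1 this
      obtain ⟨S', h1, h2, h3⟩ := ih (A.erase a) (Finset.erase_ssubset hyA) (Q' ::ₘ S0) w'
        (good_cons.2 ⟨⟨by simp [hQ'], r3.nodup_iff.2 hQn⟩, hS.2⟩)
        (Multiset.nodup_add.1 hnd2).1 (Finset.mem_erase.2 ⟨hw'y, hw'⟩) hw'x
        (fun h => by
          have := (Multiset.nodup_add.1 hnd2).2.2
          exact Multiset.disjoint_left.1 this h (Multiset.mem_singleton_self _))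
        (by
          intro w hw hw2
          obtain ⟨hwa, hwA⟩ := Finset.mem_erase.1 hw
          have hwE : s(w, x) ∈ TE (P ::ₘ S0) := by
            rcases hw2 with rfl | hw2
            · exact hw'E
            · rcases hmem _ hw2 with h | h
              · rw [Sym2.congr_left] at h
                exact absurd h hwa
              · exact h
          obtain ⟨P2, hP2, Q2, hQ2, hQ2w, hQ2x⟩ := hF w hwA (Or.inr hwE)
          have hfix : ∀ B2 C2 w2, Q2 = B2 ++ w2 :: x :: C2 → w2 ∈ A → w2 ∈ A.erase a := by
            intro B2 C2 w2 he hw2A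
            refine Finset.mem_erase.2 ⟨?_, hw2A⟩
            rintro rfl
            apply hy
            have := Multiset.mem_of_le (E_le_TE hP2)
              ((orient_props hQ2).1 ▸ he ▸ mem_E_mid B2 w2 x C2)
            exact this
          rcases Multiset.mem_cons.1 hP2 with rfl | hP2'
          · have hQ2' : Q2 = Q ∨ Q2 = Q.reverse := by
              rcases hQ with rfl | rfl <;> rcases hQ2 with rfl | rfl <;> simp
            rcases hQ2' with rfl | rfl
            · rw [hQy] at hQ2w
              exact absurd (Option.some.inj hQ2w).symm hwa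
            · have hxQ : x ∈ Q.reverse := by rw [hQe]; simp
              rcases hQ2x with h | ⟨B2, C2, w2, he, hw2A⟩
              · exact absurd hxQ h
              · have hw2 := hfix B2 C2 w2 he hw2A
                have he2 : C.reverse ++ x :: (w' :: B.reverse ++ [a]) =
                    (B2 ++ [w2]) ++ x :: C2 := by
                  have := he
                  rw [hQe] at this
                  simpa using this
                have hn2 : (C.reverse ++ x :: (w' :: B.reverse ++ [a])).Nodup := by
                  have := List.nodup_reverse.2 hQn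
                  rw [hQe] at this
                  simpa using this
                have hx1 : x ∉ C.reverse := by
                  intro hx
                  exact (List.nodup_append.1 hn2).2.2 x hx x (by simp) rfl
                have hx2 : x ∉ C2 := by
                  rw [he2] at hn2
                  exact (List.nodup_cons.1 (List.nodup_append.1 hn2).2.1).1
                have hx3 : x ∉ B2 ++ [w2] := by
                  intro hx
                  rw [he2] at hn2
                  exact (List.nodup_append.1 hn2).2.2 x hx x (by simp) rfl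
                have hC : C.reverse = B2 ++ [w2] :=
                  ((List.append_cons_inj_of_notMem hx3 hx2).1 he2.symm).1.symm
                refine ⟨Q', Multiset.mem_cons_self _ _, Q'.reverse, Or.inr rfl, ?_,
                  Or.inr ⟨B2, a :: B ++ [w'], w2, ?_, hw2⟩⟩
                · rw [← hQ2w, he, hQ']
                  simp only [List.reverse_append, List.reverse_cons, hC, List.append_assoc,
                    List.cons_append, List.nil_append]
                  cases B2 <;> simp
                · rw [hQ']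
                  simp [hC]
          · refine ⟨P2, Multiset.mem_cons_of_mem hP2', Q2, hQ2, hQ2w, ?_⟩
            rcases hQ2x with h | ⟨B2, C2, w2, he, hw2A⟩
            · exact Or.inl h
            · exact Or.inr ⟨B2, C2, w2, he, hfix B2 C2 w2 he hw2A⟩)
      refine ⟨S', h1, ?_, ?_⟩
      · rw [h2, ← hTE, ← Multiset.singleton_add, add_comm]
      · have h4 : TN (Q' ::ₘ S0) + {a} = TN (P ::ₘ S0) + {w'} := by
          rw [TN_cons, TN_cons, add_right_comm, r2, hN]; abel
        have h5 : TN S' + {a} + {w'} = TN (P ::ₘ S0) + {x} + {w'} := by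
          rw [add_right_comm, h3, add_right_comm, h4]; abel
        exact add_right_cancel h5

theorem add_edge [DecidableEq V] [Fintype V] (x y : V) (S : Multiset (List V))
    (hS : Good S) (hnd : (TE S).Nodup) (hyx : y ≠ x) (hy : s(y, x) ∉ TE S) (hyN : y ∈ TN S)
    (hN : ∀ w, w ≠ x → s(w, x) ∈ TE S → w ∈ TN S) :
    ∃ S', Good S' ∧ TE S' = s(y, x) ::ₘ TE S ∧ TN S' + {y} = TN S + {x} := by
  refine chain x (Finset.univ.erase x) S y hS hnd (by simp [hyx]) hyx hy ?_
  intro w hw hw2
  have hwx : w ≠ x := (Finset.mem_erase.1 hw).1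
  have hwN : w ∈ TN S := by
    rcases hw2 with rfl | h
    · exact hyN
    · exact hN w hwx h
  obtain ⟨P, hP, hw3⟩ := mem_TN.1 hwN
  obtain ⟨Q, hQ, hQw⟩ := mem_N hw3
  refine ⟨P, hP, Q, hQ, hQw, ?_⟩
  by_cases hx : x ∈ Q
  · right
    obtain ⟨B, C, rfl⟩ := List.append_of_mem hx
    rcases List.eq_nil_or_concat B with rfl | ⟨B', w', rfl⟩
    · simp at hQw
      exact absurd hQw.symm hwx
    · refine ⟨B', C, w', by simp, ?_⟩
      have hn := (orient_props hQ).2.2 (hS P hP).2
      rw [Finset.mem_erase]
      refine ⟨?_, Finset.mem_univ _⟩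
      rintro rfl
      exact (List.nodup_append.1 hn).2.2 w' (by simp) w' (by simp) rfl
  · exact Or.inl hx

/-- Parity vector of a multiset. -/
def par {α : Type*} [DecidableEq α] (X : Multiset α) : α → ZMod 2 := fun e => (X.count e : ZMod 2)

theorem par_add {α : Type*} [DecidableEq α] (X Y : Multiset α) : par (X + Y) = par X + par Y := by
  funext e; simp [par]

@[simp] theorem par_zero {α : Type*} [DecidableEq α] : par (0 : Multiset α) = 0 := by
  funext e; simp [par]

theorem par_cons {α : Type*} [DecidableEq α] (a : α) (X : Multiset α) :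
    par (a ::ₘ X) = par {a} + par X := by
  rw [← par_add, Multiset.singleton_add]

/-- Degree parity of an edge vector. -/
def dpar [Fintype V] (f : Sym2 V → ZMod 2) : V → ZMod 2 := fun v => ∑ w, f s(v, w)

theorem dpar_add [Fintype V] (f g : Sym2 V → ZMod 2) : dpar (f + g) = dpar f + dpar g := by
  funext v; simp [dpar, Finset.sum_add_distrib]

theorem dpar_single [Fintype V] [DecidableEq V] {a b : V} (h : a ≠ b) :
    dpar (par {s(a, b)}) = par {a} + par {b} := by
  funext v
  simp only [dpar, par, Multiset.count_singleton, Pi.add_apply, Nat.cast_ite, Nat.cast_one,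
    Nat.cast_zero]
  by_cases h1 : v = a
  · subst h1
    simp [h]
  · by_cases h2 : v = b
    · subst h2
      rw [Sym2.eq_swap (a := a)]
      simp [h1]
    · simp [h1, h2]

theorem add_self_z2 {α : Type*} (f : α → ZMod 2) : f + f = 0 := by
  funext e
  rw [Pi.add_apply, Pi.zero_apply]
  generalize f e = a
  revert a; decide

/-- Lovasz' path decomposition theorem with prescribed ends. -/
theorem lovasz [DecidableEq V] [Fintype V] (m : ℕ) : ∀ (X : Multiset (Sym2 V)) (D : Multiset V)
    (z : V), Multiset.card X = m → X.Nodup → (∀ e ∈ X, ¬ e.IsDiag) → par D = dpar (par X) →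
    (∀ v w, v ≠ z → s(v, w) ∈ X → v ∈ D) →
    ∃ S, Good S ∧ TE S = X ∧ TN S = D := by
  induction m with
  | zero =>
    intro X D z hX _ _ hD _
    rw [Multiset.card_eq_zero] at hX
    subst hX
    have hev : ∀ v, 2 ∣ D.count v := by
      intro v
      have := congrFun hD v
      rw [par_zero] at this
      simp only [dpar, Pi.zero_apply, Finset.sum_const_zero, par] at this
      exact (ZMod.natCast_eq_zero_iff _ _).1 this
    have key : ∀ D' : Multiset V, Good (D'.map fun v => [v]) ∧ TE (D'.map fun v => [v]) = 0 ∧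
        TN (D'.map fun v => [v]) = D' + D' := by
      intro D'
      induction D' using Multiset.induction_on with
      | empty => simp [Good]
      | cons a D' ih =>
        rw [Multiset.map_cons, good_cons, TE_cons, TN_cons, ih.2.1, ih.2.2, N_cons]
        refine ⟨⟨by simp, ih.1⟩, by simp, ?_⟩
        simp only [List.getLast_singleton, ← Multiset.singleton_add]
        abel
    obtain ⟨h1, h2, h3⟩ := key (∑ v, Multiset.replicate (D.count v / 2) v)
    refine ⟨_, h1, h2, h3.trans ?_⟩
    ext v
    simp only [Multiset.count_add, Multiset.count_sum', Multiset.count_replicate,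
      Finset.sum_ite_eq', Finset.mem_univ, if_true]
    have := hev v
    omega
  | succ m ih =>
    intro X D z hX hnd hdiag hD hz
    have hex : ∃ x y, s(y, x) ∈ X ∧ x ≠ z ∧ ∀ w, s(z, w) ∈ X → y = z := by
      by_cases h : ∃ w, s(z, w) ∈ X
      · obtain ⟨w, hw⟩ := h
        refine ⟨w, z, hw, ?_, fun _ _ => rfl⟩
        rintro rfl
        exact hdiag _ hw (by simp)
      · obtain ⟨e, he⟩ := Multiset.card_pos_iff_exists_mem.1 (by omega : 0 < Multiset.card X)
        induction e using Sym2.ind with
        | h a b =>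
          refine ⟨b, a, he, ?_, fun w hw => absurd ⟨w, hw⟩ h⟩
          rintro rfl
          exact h ⟨a, Sym2.eq_swap ▸ he⟩
    obtain ⟨x, y, hxy, hxz, hyz⟩ := hex
    obtain ⟨X', rfl⟩ := Multiset.exists_cons_of_mem hxy
    have hyx : y ≠ x := by
      rintro rfl
      exact hdiag _ hxy (by simp)
    have hxD : x ∈ D := hz x y hxz (Sym2.eq_swap ▸ hxy)
    obtain ⟨D', rfl⟩ := Multiset.exists_cons_of_mem hxD
    rw [Multiset.nodup_cons] at hnd
    have hmem : ∀ v w, v ≠ x → s(v, w) ∈ X' → v ∈ y ::ₘ D' := by
      intro v w hv hvw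
      by_cases hvz : v = z
      · subst hvz
        rw [hyz w (Multiset.mem_cons_of_mem hvw)]
        exact Multiset.mem_cons_self _ _
      · rcases Multiset.mem_cons.1 (hz v w hvz (Multiset.mem_cons_of_mem hvw)) with h | h
        · exact absurd h hv
        · exact Multiset.mem_cons_of_mem h
    obtain ⟨S, h1, h2, h3⟩ := ih X' (y ::ₘ D') x (by simpa using hX) hnd.2
      (fun e he => hdiag e (Multiset.mem_cons_of_mem he))
      (by
        rw [par_cons, par_cons, dpar_add, dpar_single hyx] at hD
        rw [par_cons]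
        have h5 := add_self_z2 (par ({y} : Multiset V))
        linear_combination hD + h5) hmem
    obtain ⟨S', g1, g2, g3⟩ := add_edge x y S h1 (h2 ▸ hnd.2) hyx (h2 ▸ hnd.1)
      (h3 ▸ Multiset.mem_cons_self _ _) (fun w hw hwx => h3 ▸ hmem w x hw (h2 ▸ hwx))
    refine ⟨S', g1, by rw [g2, h2], ?_⟩
    rw [h3] at g3
    apply add_right_cancel (b := ({y} : Multiset V))
    rw [g3]
    simp only [← Multiset.singleton_add]
    abel

end Pool.Agent.Work.MP_6b7c5d_co
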