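import Pool.Agent.Work.MP_6b7c5d_co.Carry
import Mathlib.Combinatorics.SimpleGraph.Paths

namespace Pool.Agent.Work.MP_6b7c5d_co

variable {V : Type*} [DecidableEq V]

omit [DecidableEq V] in
theorem exists_pairing (z0 : V) : ∀ L : List V, ∃ (M : List (V × V)) (R : List V) (z : V),
    L = flat M ++ R ∧ ∀ v ∈ R, v = z
  | [] => ⟨[], [], z0, rfl, by simp⟩
  | [a] => ⟨[], [a], a, rfl, by simp⟩
  | a :: b :: L => by
    obtain ⟨M, R, z, h1, h2⟩ := exists_pairing z0 L
    exact ⟨(a, b) :: M, R, z, by rw [h1]; rfl, h2⟩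

theorem dpar_edgesOf [Fintype V] : ∀ M : List (V × V), (flat M).Nodup →
    dpar (par (edgesOf M)) = par (flat M : Multiset V) ∧ ∀ v, par (edgesOf M) s(v, v) = 0
  | [], _ => by
    refine ⟨?_, fun v => by simp [edgesOf]⟩
    funext v
    simp [edgesOf, flat, dpar]
  | p :: M, h => by
    rw [flat, List.nodup_cons, List.nodup_cons] at h
    have hne : p.1 ≠ p.2 := fun h2 => h.1 (by simp [h2])
    obtain ⟨i1, i2⟩ := dpar_edgesOf M h.2.2
    constructor
    · rw [edgesOf_cons, par_cons, dpar_add, dpar_single hne, i1, flat, ← Multiset.cons_coe,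
        ← Multiset.cons_coe, par_cons p.1, par_cons p.2, add_assoc]
    · intro v
      rw [edgesOf_cons, par_cons, Pi.add_apply, i2, add_zero, par, Multiset.count_singleton,
        if_neg]
      · simp
      · intro h3
        rw [Sym2.eq_iff] at h3
        rcases h3 with h3 | h3
        · exact hne (h3.1.symm.trans h3.2)
        · exact hne (h3.2.symm.trans h3.1)

theorem z2_cases (a : ZMod 2) : a = 0 ∨ a = 1 := by revert a; decide

theorem par_support {α : Type*} [DecidableEq α] [Fintype α] (f : α → ZMod 2) :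
    par (Finset.univ.filter (fun e => f e = 1)).val = f := by
  funext e
  rw [par]
  rcases z2_cases (f e) with h | h
  · rw [Multiset.count_eq_zero_of_notMem (by simp [h]), h]; simp
  · rw [Multiset.count_eq_one_of_mem (Finset.nodup _) (by simp [h]), h]; simp

/-- Every loopless edge vector over `F_2` is a sum of at most `n / 2 + 8` paths. -/
theorem cover [Fintype V] (z0 : V) (g : Sym2 V → ZMod 2) (hg : ∀ v, g s(v, v) = 0) :
    ∃ S : Multiset (List V), Good S ∧ Multiset.card S ≤ Fintype.card V / 2 + 8 ∧
      par (TE S) = g := by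
  obtain ⟨M, R, z, hL, hz⟩ := exists_pairing z0 (Finset.univ.filter (fun v => dpar g v = 0)).toList
  have hnd : (flat M ++ R).Nodup := hL ▸ Finset.nodup_toList _
  have hM : (flat M).Nodup := (List.nodup_append.1 hnd).1
  have hmem : ∀ v, dpar g v = 0 ↔ v ∈ flat M ∨ v ∈ R := by
    intro v
    rw [← List.mem_append, ← hL]
    simp
  obtain ⟨i1, i2⟩ := dpar_edgesOf M hM
  set f := g + par (edgesOf M) with hf
  set X := (Finset.univ.filter (fun e => f e = 1)).val with hX
  set D := (Finset.univ.filter (fun v => dpar f v = 1)).val with hD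
  have hfD : ∀ v, v ∉ R → v ∈ D := by
    intro v hv
    simp only [hD, Finset.mem_val, Finset.mem_filter, Finset.mem_univ, true_and]
    rw [hf, dpar_add, i1, Pi.add_apply, par]
    by_cases h : v ∈ flat M
    · rw [(hmem v).2 (Or.inl h), Multiset.count_eq_one_of_mem (by simpa using hM) (by simpa using h)]
      simp
    · rw [Multiset.count_eq_zero_of_notMem (by simpa using h)]
      rcases z2_cases (dpar g v) with h2 | h2
      · rcases (hmem v).1 h2 with h3 | h3
        · exact absurd h3 h
        · exact absurd h3 hv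
      · simp [h2]
  obtain ⟨S, h1, h2, h3⟩ := lovasz _ X D z rfl (Finset.nodup _)
    (by
      intro e he
      induction e using Sym2.ind with
      | h a b =>
        rw [Sym2.mk_isDiag_iff]
        rintro rfl
        simp only [hX, Finset.mem_val, Finset.mem_filter, Finset.mem_univ, true_and, hf,
          Pi.add_apply, hg, i2] at he
        exact absurd he (by decide))
    (by rw [hD, hX, par_support, par_support])
    (fun v w hv _ => hfD v (fun h => hv (hz v h)))
  have hcard : 2 * Multiset.card S ≤ Fintype.card V := by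
    rw [← card_TN h1, h3, hD, Finset.card_val]
    exact Finset.card_le_univ _
  have hlen : 2 * M.length ≤ Fintype.card V := by
    rw [← length_flat]
    exact hM.length_le_card
  obtain ⟨S', g1, g2, g3⟩ := carry_all ((Fintype.card V + 17) / 15) (by omega) 8 M S (by omega) h1
    hM (fun w hw => h3 ▸ hfD w (fun h => (List.nodup_append.1 hnd).2.2 w hw w h rfl))
  refine ⟨S', g1, by omega, ?_⟩
  rw [g3, h2, hX, par_support, hf, add_assoc, add_self_z2, add_zero]

omit [DecidableEq V] in
theorem exists_walk : ∀ (a : V) (l : List V), (a :: l).Nodup →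
    ∃ (b : V) (p : (⊤ : SimpleGraph V).Walk a b), p.support = a :: l ∧
      (p.edges : Multiset (Sym2 V)) = E (a :: l)
  | a, [], _ => ⟨a, SimpleGraph.Walk.nil, rfl, rfl⟩
  | a, c :: l, h => by
    obtain ⟨b, p, h1, h2⟩ := exists_walk c l (List.nodup_cons.1 h).2
    have hac : (⊤ : SimpleGraph V).Adj a c := by
      rw [SimpleGraph.top_adj]
      rintro rfl
      simp at h
    exact ⟨b, SimpleGraph.Walk.cons hac p, by simp [h1], by
      rw [SimpleGraph.Walk.edges_cons, ← Multiset.cons_coe, h2, E_cons_cons]⟩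

theorem main (n : ℕ) (G : SimpleGraph (Fin n)) :
    ∃ (k : ℕ) (u v : Fin k → Fin n)
      (P : ∀ i : Fin k, (⊤ : SimpleGraph (Fin n)).Walk (u i) (v i)),
      k ≤ n / 2 + 8 ∧
      (∀ i : Fin k, (P i).IsPath) ∧
      ∀ a b : Fin n, a ≠ b →
        (G.Adj a b ↔
          Odd ((Finset.univ.filter (fun i : Fin k => s(a, b) ∈ (P i).edges)).card)) := by
  classical
  rcases Nat.eq_zero_or_pos n with rfl | hn
  · exact ⟨0, Fin.elim0, Fin.elim0, fun i => i.elim0, by simp, fun i => i.elim0,
      fun a => a.elim0⟩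
  obtain ⟨S, h1, h2, h3⟩ := cover (⟨0, hn⟩ : Fin n)
    (fun e => if e ∈ G.edgeSet then 1 else 0) (by simp)
  induction S using Quotient.inductionOn with
  | h L =>
  have hw : ∀ i : Fin L.length, ∃ (a b : Fin n) (p : (⊤ : SimpleGraph (Fin n)).Walk a b),
      p.IsPath ∧ (p.edges : Multiset (Sym2 (Fin n))) = E (L.get i) := by
    intro i
    obtain ⟨g1, g2⟩ := h1 (L.get i) (by simp)
    obtain ⟨a, l, hl⟩ := List.exists_cons_of_ne_nil g1
    rw [hl] at g2 ⊢
    obtain ⟨b, p, p1, p2⟩ := exists_walk a l g2
    exact ⟨a, b, p, by rw [SimpleGraph.Walk.isPath_def, p1]; exact g2, p2⟩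
  choose u v P hP1 hP2 using hw
  refine ⟨L.length, u, v, P, by simpa using h2, hP1, fun a b _ => ?_⟩
  have hcount : (Finset.univ.filter (fun i : Fin L.length => s(a, b) ∈ (P i).edges)).card =
      Multiset.count s(a, b) (TE (L : Multiset (List (Fin n)))) := by
    have hTE : TE (L : Multiset (List (Fin n))) = ∑ i : Fin L.length, E (L.get i) := by
      rw [TE, Multiset.map_coe, Multiset.sum_coe, ← List.sum_ofFn]
      congr 1
      conv_lhs => rw [← List.ofFn_get L]
      rw [List.map_ofFn]; rfl
    rw [hTE, Multiset.count_sum', Finset.card_filter]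
    apply Finset.sum_congr rfl
    intro i _
    rw [← hP2 i]
    split_ifs with h
    · exact (Multiset.count_eq_one_of_mem (by simpa using (hP1 i).isTrail.edges_nodup)
        (by simpa using h)).symm
    · exact (Multiset.count_eq_zero_of_notMem (by simpa using h)).symm
  have h4 := congrFun h3 s(a, b)
  rw [hcount, ← ZMod.natCast_eq_one_iff_odd]
  change _ ↔ par (TE (L : Multiset (List (Fin n)))) s(a, b) = 1
  change par (TE (L : Multiset (List (Fin n)))) s(a, b) = _ at h4
  rw [h4]
  simp

end Pool.Agent.Work.MP_6b7c5d_co
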