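import Pool.Agent.Work.MP_6b7c5d_co.Star
import Pool.Agent.Work.MP_6b7c5d_co.Main

namespace Pool.Agent.Work.MP_6b7c5d_co

variable {V : Type*} [DecidableEq V] [Fintype V]

/-- A simple graph given by its edge multiset. -/
def Gr (H : Multiset (Sym2 V)) : Prop := H.Nodup ∧ ∀ e ∈ H, ¬ e.IsDiag

/-- Parity of the degree. -/
def od (H : Multiset (Sym2 V)) (v : V) : ZMod 2 := dpar (par H) v

/-- A decomposition into at most `k` paths and cycles, with a tracked member inside `K` and an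
end at every vertex of `P`. -/
def Win (H : Multiset (Sym2 V)) (k : ℕ) (τ : Prop) (K P : V → Prop) : Prop :=
  ∃ S C, Good S ∧ GoodC C ∧ TE S + TC C = H ∧ Multiset.card S + Multiset.card C ≤ k ∧
    (τ → Tr S C K) ∧ ∀ v, P v → v ∈ TN S

omit [DecidableEq V] [Fintype V] in
theorem Gr.ne {H : Multiset (Sym2 V)} (hH : Gr H) {a b : V} (h : s(a, b) ∈ H) : a ≠ b := by
  rintro rfl
  exact hH.2 _ h (by simp)

theorem mem_TN_of_od {S C : Multiset (List V)} (hS : Good S) (hC : GoodC C) {v : V}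
    (h : od (TE S + TC C) v = 1) : v ∈ TN S := by
  rw [od, par_add, dpar_add, dpar_TE hS, dpar_TC hC, add_zero, par] at h
  by_contra h2
  rw [Multiset.count_eq_zero_of_notMem h2] at h
  exact absurd h (by decide)

theorem exists_adj_of_od {H : Multiset (Sym2 V)} {v : V} (h : od H v = 1) : ∃ w, s(v, w) ∈ H := by
  by_contra h2
  have : od H v = 0 := by
    refine Finset.sum_eq_zero fun w _ => ?_
    rw [par, Multiset.count_eq_zero_of_notMem (fun h3 => h2 ⟨w, h3⟩)]
    rfl
  rw [this] at h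
  exact absurd h (by decide)

omit [DecidableEq V] [Fintype V] in
theorem mem_St {A : Finset V} {z : V} {e : Sym2 V} : e ∈ St A z ↔ ∃ y ∈ A, s(y, z) = e := by
  simp [St]

omit [DecidableEq V] [Fintype V] in
theorem nodup_St (A : Finset V) (z : V) : (St A z).Nodup :=
  Multiset.Nodup.map_on (fun a _ b _ h => Sym2.congr_left.1 h) A.nodup

theorem dpar_St (z : V) (A : Finset V) (hz : z ∉ A) (v : V) :
    dpar (par (St A z)) v = (if v ∈ A then 1 else 0) + (if v = z then (A.card : ZMod 2) else 0) := by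
  induction A using Finset.induction_on with
  | empty => simp [St, dpar_zero]
  | insert a A ha ih =>
    have haz : a ≠ z := fun h => hz (h ▸ Finset.mem_insert_self a A)
    have hzA : z ∉ A := fun h => hz (Finset.mem_insert_of_mem h)
    rw [St_erase (Finset.mem_insert_self a A), Finset.erase_insert ha, par_cons, dpar_add,
      dpar_single haz, Pi.add_apply, ih hzA, Finset.card_insert_of_notMem ha]
    simp only [Pi.add_apply, par, Multiset.count_singleton, Finset.mem_insert]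
    by_cases h1 : v = a
    · subst h1
      simp [ha, haz]
    · by_cases h2 : v = z
      · subst h2
        simp [h1, hzA, add_comm]
      · simp [h1, h2]

theorem z2_flip {a b : ZMod 2} (h : a = b + 1) : b = a + 1 := by
  revert a b; decide

/-- Removing a star, and putting it back by Lovasz' construction. -/
theorem mv {H : Multiset (Sym2 V)} (hH : Gr H) (z : V) (A : Finset V)
    (hA : ∀ y ∈ A, s(y, z) ∈ H) :
    ∃ H', Gr H' ∧ (∀ e ∈ H', e ∈ H) ∧ (∀ y ∈ A, s(y, z) ∉ H') ∧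
      (∀ a b, a ∉ A → b ∉ A → s(a, b) ∈ H → s(a, b) ∈ H') ∧
      (∀ v, v ≠ z → v ∉ A → od H' v = od H v) ∧ (∀ v ∈ A, od H' v = od H v + 1) ∧
      (A.card = 1 → od H' z = od H z + 1) ∧ Multiset.card H' + A.card = Multiset.card H ∧
      ∀ (k : ℕ) (τ : Prop) (K P P' : V → Prop), K z →
        (∀ w, s(w, z) ∈ H → od H' w = 1 ∨ P' w) → (∀ v, P v → P' v ∧ v ≠ z ∧ v ∉ A) →
        Win H' k τ K P' → Win H k τ K P := by
  have hle : St A z ≤ H := by
    rw [Multiset.le_iff_subset (nodup_St A z)]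
    intro e he
    obtain ⟨y, hy, rfl⟩ := mem_St.1 he
    exact hA y hy
  obtain ⟨H', rfl⟩ : ∃ H', H = H' + St A z := ⟨H - St A z, (tsub_add_cancel_of_le hle).symm⟩
  have hzA : z ∉ A := fun h => hH.ne (hA z h) rfl
  have hnd := Multiset.nodup_add.1 hH.1
  have hnot : ∀ y ∈ A, s(y, z) ∉ H' := fun y hy h =>
    Multiset.disjoint_left.1 hnd.2.2 h (mem_St.2 ⟨y, hy, rfl⟩)
  have hod : ∀ v, od (H' + St A z) v = od H' v +
      ((if v ∈ A then 1 else 0) + (if v = z then (A.card : ZMod 2) else 0)) := by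
    intro v
    rw [od, par_add, dpar_add, Pi.add_apply, dpar_St z A hzA, od]
  refine ⟨H', ⟨hnd.1, fun e he => hH.2 e (Multiset.mem_add.2 (Or.inl he))⟩,
    fun e he => Multiset.mem_add.2 (Or.inl he), hnot, ?_, ?_, ?_, ?_, by simp [St], ?_⟩
  · intro a b ha hb h
    rcases Multiset.mem_add.1 h with h | h
    · exact h
    · obtain ⟨y, hy, he⟩ := mem_St.1 h
      rw [Sym2.eq_iff] at he
      rcases he with he | he
      · exact absurd (he.1 ▸ hy) ha
      · exact absurd (he.1 ▸ hy) hb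
  · intro v h1 h2
    rw [hod, if_neg h1, if_neg h2]
    simp
  · intro v hv
    apply z2_flip
    rw [hod, if_pos hv, if_neg (fun h : v = z => hzA (h ▸ hv))]
    simp
  · intro h
    apply z2_flip
    rw [hod, if_neg hzA, if_pos rfl, h]
    simp
  · rintro k τ K P P' hKz hN hP ⟨S, C, hS, hC, rfl, hk, hT, hP'⟩
    obtain ⟨S', C', g1, g2, g3, g4, g5, g6⟩ := star z K S C A hS hC hnd.1 hzA hnot (by
      intro w _ hw
      have : s(w, z) ∈ TE S + TC C + St A z := by
        rcases hw with hw | hw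
        · exact hA w hw
        · exact Multiset.mem_add.2 (Or.inl (Multiset.mem_add.2 (Or.inl hw)))
      rcases hN w this with h | h
      · exact mem_TN_of_od hS hC h
      · exact hP' w h)
    exact ⟨S', C', g1, g2, g4, g3 ▸ hk, fun h => g6 hKz (hT h),
      fun v hv => g5 v (hP v hv).2.1 (hP v hv).2.2 (hP' v (hP v hv).1)⟩

/-- Removing all edges from `z` to its even neighbours. -/
theorem mv_even {H : Multiset (Sym2 V)} (hH : Gr H) (z : V) :
    ∃ H', Gr H' ∧ (∀ e ∈ H', e ∈ H) ∧ (∀ w, s(w, z) ∈ H' → od H w = 1) ∧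
      (∀ a b, od H a = 1 → od H b = 1 → s(a, b) ∈ H → s(a, b) ∈ H') ∧
      (∀ v, v ≠ z → od H v = 1 → od H' v = 1) ∧
      ((∃ y, s(y, z) ∈ H ∧ od H y = 0) → Multiset.card H' < Multiset.card H) ∧
      ∀ (k : ℕ) (τ : Prop) (K : V → Prop), K z →
        Win H' k τ K (fun _ => False) → Win H k τ K (fun _ => False) := by
  set A := Finset.univ.filter (fun y => s(y, z) ∈ H ∧ od H y = 0) with hAdef
  have hA : ∀ y, y ∈ A ↔ s(y, z) ∈ H ∧ od H y = 0 := by simp [hAdef]
  have hA1 : ∀ y, od H y = 1 → y ∉ A := fun y h h2 => by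
    rw [((hA y).1 h2).2] at h
    exact absurd h (by decide)
  obtain ⟨H', g1, g2, g3, g4, g5, g6, -, g8, g9⟩ := mv hH z A (fun y hy => ((hA y).1 hy).1)
  refine ⟨H', g1, g2, ?_, fun a b ha hb => g4 a b (hA1 a ha) (hA1 b hb),
    fun v hv h => (g5 v hv (hA1 v h)).trans h, ?_, fun k τ K hK => g9 k τ K _ _ hK ?_ (by simp)⟩
  · intro w hw
    rcases z2_cases (od H w) with h | h
    · exact absurd hw (g3 w ((hA w).2 ⟨g2 _ hw, h⟩))
    · exact h
  · rintro ⟨y, hy⟩
    have := Finset.card_pos.2 ⟨y, (hA y).2 hy⟩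
    omega
  · intro w hw
    left
    rcases z2_cases (od H w) with h | h
    · rw [g6 w ((hA w).2 ⟨hw, h⟩), h, zero_add]
    · exact (g5 w (hH.ne hw) (hA1 w h)).trans h

/-- Removing one edge. -/
theorem mv_one {H : Multiset (Sym2 V)} (hH : Gr H) (z y : V) (hy : s(y, z) ∈ H) :
    ∃ H', Gr H' ∧ (∀ e ∈ H', e ∈ H) ∧ s(y, z) ∉ H' ∧
      (∀ a b, a ≠ y → b ≠ y → s(a, b) ∈ H → s(a, b) ∈ H') ∧
      (∀ v, v ≠ z → v ≠ y → od H' v = od H v) ∧ od H' y = od H y + 1 ∧
      od H' z = od H z + 1 ∧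
      ∀ (k : ℕ) (τ : Prop) (K P P' : V → Prop), K z →
        (∀ w, s(w, z) ∈ H → od H' w = 1 ∨ P' w) → (∀ v, P v → P' v ∧ v ≠ z ∧ v ≠ y) →
        Win H' k τ K P' → Win H k τ K P := by
  obtain ⟨H', g1, g2, g3, g4, g5, g6, g7, -, g9⟩ := mv hH z {y} (by simpa using hy)
  simp only [Finset.mem_singleton] at g3 g4 g5 g6 g9
  exact ⟨H', g1, g2, g3 y rfl, g4, g5, g6 y rfl, g7 (Finset.card_singleton y), g9⟩

/-- Lovasz' theorem: at most `n / 2` paths and cycles. -/
theorem dec (B : Finset V) (z0 : V) (m : ℕ) : ∀ H : Multiset (Sym2 V), Multiset.card H ≤ m → Gr H →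
    (∀ a b, s(a, b) ∈ H → a ∈ B) →
    Win H (B.card / 2) False (fun _ => True) (fun _ => False) := by
  have key : ∀ H : Multiset (Sym2 V), Gr H → (∀ a b, s(a, b) ∈ H → a ∈ B) →
      (¬ ∃ z y, s(y, z) ∈ H ∧ od H y = 0) →
      Win H (B.card / 2) False (fun _ => True) (fun _ => False) := by
    intro H hH hB h
    obtain ⟨S, h1, h2, h3⟩ := lovasz _ H (Finset.univ.filter (fun v => dpar (par H) v = 1)).val z0
      rfl hH.1 hH.2 (par_support _) (by
        intro v w _ hvw
        rcases z2_cases (od H v) with h0 | h0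
        · exact absurd ⟨w, v, hvw, h0⟩ h
        · simpa [od] using h0)
    refine ⟨S, 0, h1, by simp [GoodC], by simp [h2], ?_, False.elim, fun _ => False.elim⟩
    have h4 := card_TN h1
    rw [h3, Finset.card_val] at h4
    have h5 : (Finset.univ.filter (fun v => dpar (par H) v = 1)).card ≤ B.card := by
      apply Finset.card_le_card
      intro v hv
      obtain ⟨w, hw⟩ := exists_adj_of_od (H := H) (v := v) (by simpa [od] using hv)
      exact hB v w hw
    simp only [Multiset.card_zero]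
    omega
  induction m with
  | zero =>
    intro H hm hH hB
    refine key H hH hB ?_
    rintro ⟨z, y, h, -⟩
    have := Multiset.card_pos_iff_exists_mem.2 ⟨_, h⟩
    omega
  | succ m ih =>
    intro H hm hH hB
    by_cases h : ∃ z y, s(y, z) ∈ H ∧ od H y = 0
    · obtain ⟨z, h⟩ := h
      obtain ⟨H', g1, g2, -, -, -, g6, g7⟩ := mv_even hH z
      have := g6 h
      exact g7 _ _ _ trivial (ih H' (by omega) g1 (fun a b h => hB a b (g2 _ h)))
    · exact key H hH hB h

omit [DecidableEq V] [Fintype V] in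
theorem add_triv {H : Multiset (Sym2 V)} {k : ℕ} {τ : Prop} {K P : V → Prop} (t : V)
    (K' P' : V → Prop) (hK : K' t) (hP : ∀ v, P' v → v = t) (h : Win H k τ K P) :
    Win H (k + 1) True K' P' := by
  obtain ⟨S, C, hS, hC, rfl, hk, -, -⟩ := h
  refine ⟨[t] ::ₘ S, C, good_cons.2 ⟨by simp, hS⟩, hC, by simp, by simp; omega,
    fun _ => ⟨[t], by simp, by simpa using hK⟩, fun v hv => ?_⟩
  rw [hP v hv, TN_cons, N_cons]
  simp

theorem dec_iso {H : Multiset (Sym2 V)} (hH : Gr H) (x : V) (hx : ∀ w, s(w, x) ∉ H) :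
    Win H ((Fintype.card V - 1) / 2) False (fun _ => True) (fun _ => False) := by
  have := dec (Finset.univ.erase x) x _ H le_rfl hH (by
    intro a b h
    refine Finset.mem_erase.2 ⟨?_, Finset.mem_univ _⟩
    rintro rfl
    exact hx b (Sym2.eq_swap ▸ h))
  rwa [Finset.card_erase_of_mem (Finset.mem_univ _), Finset.card_univ] at this

/-- A tracked member made of ends gives an odd cover by paths. -/
theorem finish {H : Multiset (Sym2 V)} (hH : Gr H) {k : ℕ} {K P : V → Prop}
    (hK : ∀ v, K v → od H v = 1 ∨ P v) (h : Win H k True K P) :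
    ∃ S, Good S ∧ Multiset.card S ≤ k ∧ par (TE S) = par H := by
  obtain ⟨S, C, hS, hC, rfl, hk, hT, hP⟩ := h
  obtain ⟨T, hT, hTK⟩ := hT trivial
  have hTN : ∀ v ∈ T, v ∈ TN S := fun v hv => (hK v (hTK v hv)).elim (mem_TN_of_od hS hC) (hP v)
  rcases Multiset.mem_add.1 hT with h | h
  · obtain ⟨S', g1, g2, -, g4⟩ := token _ (fun _ => True) S C rfl hS hC hH.1
      (fun _ _ _ _ => trivial) (fun _ _ _ _ => trivial) ⟨T, h, hTN⟩
    exact ⟨S', g1, by omega, g4⟩
  · obtain ⟨C0, rfl⟩ := Multiset.exists_cons_of_mem h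
    rw [goodC_cons] at hC
    have hnd := hH.1
    rw [TC_cons, ← add_assoc] at hnd
    obtain ⟨S1, f1, f2, f3, f4, f5⟩ := step_cycle (fun _ => True) S T hS hC.1
      (Multiset.nodup_add.1 hnd).1 (fun _ _ _ _ => trivial) (fun _ _ => trivial) hTN
    obtain ⟨S', g1, g2, -, g4⟩ := token _ (fun _ => True) S1 C0 rfl f1 hC.2 (f4 ▸ hnd)
      f3 (fun _ _ _ _ => trivial) f5
    refine ⟨S', g1, ?_, by rw [g4, f4, TC_cons, add_assoc]⟩
    rw [Multiset.card_cons] at hk
    omega

end Pool.Agent.Work.MP_6b7c5d_co
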