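import Pool.Agent.Work.MP_6b7c5d_co.Token

namespace Pool.Agent.Work.MP_6b7c5d_co

variable {V : Type*}

/-- There is an end at `w` whose path avoids `x`, or ends at `x`, or reaches `x` through `B`. -/
def FreshS (S : Multiset (List V)) (x : V) (B : Finset V) (w : V) : Prop :=
  ∃ P ∈ S, ∃ Q, (Q = P ∨ Q = P.reverse) ∧ Q.head? = some w ∧
    (x ∉ Q ∨ Q.getLast? = some x ∨ ∃ B' C w', Q = B' ++ w' :: x :: C ∧ w' ∈ B)

/-- Some path or cycle of the system lies inside `K`. -/
def Tr (S C : Multiset (List V)) (K : V → Prop) : Prop := ∃ T ∈ S + C, ∀ v ∈ T, K v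

/-- Edges from the vertices of `A` to `x`. -/
def St (A : Finset V) (x : V) : Multiset (Sym2 V) := A.val.map fun y => s(y, x)

theorem St_erase [DecidableEq V] {A : Finset V} {y : V} (hy : y ∈ A) (x : V) :
    St A x = s(y, x) ::ₘ St (A.erase y) x := by
  rw [St, St, Finset.erase_val]
  conv_lhs => rw [← Multiset.cons_erase hy]
  rw [Multiset.map_cons]

theorem val_erase [DecidableEq V] {A : Finset V} {y : V} (hy : y ∈ A) :
    A.val = {y} + (A.erase y).val := by
  rw [Finset.erase_val, Multiset.singleton_add, Multiset.cons_erase hy]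

theorem freshS_erase [DecidableEq V] {S0 : Multiset (List V)} {x y w : V} {B : Finset V}
    {P2 Q2 : List V} (hP2 : P2 ∈ S0) (hQ2 : Q2 = P2 ∨ Q2 = P2.reverse) (hw : Q2.head? = some w)
    (hy : s(y, x) ∉ E P2)
    (h : x ∉ Q2 ∨ Q2.getLast? = some x ∨ ∃ B' C w', Q2 = B' ++ w' :: x :: C ∧ w' ∈ B) :
    FreshS S0 x (B.erase y) w := by
  refine ⟨P2, hP2, Q2, hQ2, hw, ?_⟩
  rcases h with h | h | ⟨B2, C2, w2, he, hw2⟩
  · exact Or.inl h
  · exact Or.inr (Or.inl h)
  · refine Or.inr (Or.inr ⟨B2, C2, w2, he, Finset.mem_erase.2 ⟨?_, hw2⟩⟩)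
    rintro rfl
    exact hy ((orient_props hQ2).1 ▸ he ▸ mem_E_mid B2 w2 x C2)

theorem freshS_mono {S S' : Multiset (List V)} {x w : V} {B : Finset V} (h : FreshS S x B w)
    (hS : ∀ P ∈ S, P ∈ S') : FreshS S' x B w := by
  obtain ⟨P, hP, h⟩ := h
  exact ⟨P, hS P hP, h⟩

theorem star_aux [DecidableEq V] (x : V) (K : V → Prop) (B : Finset V) :
    ∀ (S C : Multiset (List V)) (A : Finset V), Good S → GoodC C → (TE S + TC C).Nodup →
    A ⊆ B → x ∉ B → (∀ y ∈ A, s(y, x) ∉ TE S + TC C) →
    (∀ w ∈ B, (w ∈ A ∨ s(w, x) ∈ TE S) → FreshS S x B w) →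
    ∃ S' C', Good S' ∧ GoodC C' ∧
      Multiset.card S' + Multiset.card C' = Multiset.card S + Multiset.card C ∧
      TE S' + TC C' = TE S + TC C + St A x ∧
      (∀ v, v ≠ x → (TN S' + A.val).count v = (TN S).count v) ∧
      (K x → Tr S C K → Tr S' C' K) := by
  induction B using Finset.strongInduction with
  | H B ih =>
  intro S C A hS hC hnd hAB hxB hA hF
  rcases A.eq_empty_or_nonempty with rfl | ⟨y, hyA⟩
  · exact ⟨S, C, hS, hC, rfl, by simp [St], by simp, fun _ h => h⟩
  have hyB := hAB hyA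
  have hyx : y ≠ x := fun h => hxB (h ▸ hyB)
  have hy := hA y hyA
  obtain ⟨P, hP, Q, hQ, hQy, hQx⟩ := hF y hyB (Or.inl hyA)
  obtain ⟨S0, rfl⟩ := Multiset.exists_cons_of_mem hP
  obtain ⟨hE, hN, hnod⟩ := orient_props hQ
  rw [good_cons] at hS
  have hQn : Q.Nodup := hnod hS.1.2
  have hyS : ∀ P2 ∈ P ::ₘ S0, s(y, x) ∉ E P2 := fun P2 h h' =>
    hy (Multiset.mem_add.2 (Or.inl (Multiset.mem_of_le (E_le_TE h) h')))
  have hxB' : x ∉ B.erase y := fun h => hxB (Finset.mem_of_mem_erase h)
  have hother : ∀ {Q2 : List V} {w : V}, (Q2 = P ∨ Q2 = P.reverse) → Q2.head? = some w → w ≠ y →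
      Q2 = Q.reverse := by
    intro Q2 w hQ2 hw hwy
    have hQ2' : Q2 = Q ∨ Q2 = Q.reverse := by
      rcases hQ with rfl | rfl <;> rcases hQ2 with rfl | rfl <;> simp
    rcases hQ2' with rfl | h
    · rw [hQy] at hw
      exact absurd (Option.some.inj hw).symm hwy
    · exact h
  have hnew : ∀ X : Multiset (Sym2 V), X = s(y, x) ::ₘ (TE (P ::ₘ S0) + TC C) →
      X.Nodup ∧ ∀ z ∈ A.erase y, s(z, x) ∉ X := by
    rintro X rfl
    refine ⟨Multiset.nodup_cons.2 ⟨hy, hnd⟩, fun z hz h => ?_⟩
    obtain ⟨hzy, hzA⟩ := Finset.mem_erase.1 hz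
    rcases Multiset.mem_cons.1 h with h | h
    · rw [Sym2.congr_left] at h
      exact hzy h
    · exact hA z hzA h
  obtain ⟨a, l, rfl⟩ : ∃ a l, Q = a :: l := by
    cases Q with
    | nil => simp at hQy
    | cons a l => exact ⟨a, l, rfl⟩
  simp only [List.head?_cons, Option.some.injEq] at hQy
  subst hQy
  rcases hQx with hQx | hQx | ⟨B1, C1, w', hQe, hw'⟩
  · -- extension
    have hTE : TE ((x :: a :: l) ::ₘ S0) = s(a, x) ::ₘ TE (P ::ₘ S0) := by
      rw [TE_cons, TE_cons, E_cons_cons, hE, Multiset.cons_add, Sym2.eq_swap]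
    obtain ⟨n1, n2⟩ := hnew (TE ((x :: a :: l) ::ₘ S0) + TC C) (by rw [hTE, Multiset.cons_add])
    obtain ⟨S', C', g1, g2, g3, g4, g5, g6⟩ := ih (B.erase a) (Finset.erase_ssubset hyB)
      ((x :: a :: l) ::ₘ S0) C (A.erase a)
      (good_cons.2 ⟨⟨List.cons_ne_nil _ _, List.nodup_cons.2 ⟨hQx, hQn⟩⟩, hS.2⟩) hC n1
      (Finset.erase_subset_erase _ hAB) hxB' n2
      (by
        intro w hw hw2
        obtain ⟨hwa, hwB⟩ := Finset.mem_erase.1 hw
        obtain ⟨P2, hP2, Q2, hQ2, hQ2w, hQ2x⟩ := hF w hwB (by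
          rcases hw2 with h | h
          · exact Or.inl (Finset.mem_of_mem_erase h)
          · rw [hTE] at h
            rcases Multiset.mem_cons.1 h with h | h
            · rw [Sym2.congr_left] at h
              exact absurd h hwa
            · exact Or.inr h)
        rcases Multiset.mem_cons.1 hP2 with rfl | hP2'
        · have := hother hQ2 hQ2w hwa
          subst this
          refine ⟨x :: a :: l, Multiset.mem_cons_self _ _, (x :: a :: l).reverse, Or.inr rfl, ?_,
            Or.inr (Or.inl (by simp))⟩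
          rw [← hQ2w]
          simp
        · exact freshS_mono (freshS_erase hP2' hQ2 hQ2w (hyS P2 hP2) hQ2x)
            (fun _ h => Multiset.mem_cons_of_mem h))
    refine ⟨S', C', g1, g2, by simpa using g3, ?_, ?_, ?_⟩
    · rw [g4, hTE, St_erase hyA]
      simp only [← Multiset.singleton_add]
      abel
    · intro v hv
      have h1 : TN ((x :: a :: l) ::ₘ S0) + {a} = TN (P ::ₘ S0) + {x} := by
        rw [TN_cons, TN_cons, ← hN, add_right_comm, add_right_comm (N (a :: l)),
          N_head_change x a (a :: l) l (List.getLast?_cons_cons)]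
      have h2 := congrArg (Multiset.count v) h1
      have h3 := g5 v hv
      rw [val_erase hyA]
      simp only [Multiset.count_add, Multiset.count_singleton, if_neg hv] at h2 h3 ⊢
      omega
    · intro hKx ⟨T, hT, hTK⟩
      refine g6 hKx ?_
      rw [Multiset.cons_add] at hT
      rcases Multiset.mem_cons.1 hT with rfl | h
      · refine ⟨x :: a :: l, by simp, fun v hv => ?_⟩
        rcases List.mem_cons.1 hv with rfl | h
        · exact hKx
        · exact hTK v ((orient_mem hQ v).1 h)
      · exact ⟨T, by rw [Multiset.cons_add]; exact Multiset.mem_cons_of_mem h, hTK⟩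
  · -- closing a cycle
    obtain ⟨m, rfl⟩ : ∃ m, l = m ++ [x] := by
      rcases List.eq_nil_or_concat l with rfl | ⟨m, b, rfl⟩
      · simp at hQx
        exact absurd hQx hyx
      · rw [List.concat_eq_append, ← List.cons_append, List.getLast?_concat] at hQx
        exact ⟨m, by rw [List.concat_eq_append, Option.some.inj hQx]⟩
    have hCE : CE (a :: (m ++ [x])) = s(a, x) ::ₘ E P := by
      change E (a :: (m ++ [x]) ++ [a]) = _
      have e1 : a :: (m ++ [x]) ++ [a] = (a :: m) ++ x :: a :: [] := by simp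
      rw [e1, E_mid, ← hE, Sym2.eq_swap]
      simp
    have hTE : TE S0 + TC ((a :: (m ++ [x])) ::ₘ C) = s(a, x) ::ₘ (TE (P ::ₘ S0) + TC C) := by
      rw [TC_cons, hCE, TE_cons]
      simp only [← Multiset.singleton_add]
      abel
    obtain ⟨n1, n2⟩ := hnew _ hTE
    obtain ⟨S', C', g1, g2, g3, g4, g5, g6⟩ := ih (B.erase a) (Finset.erase_ssubset hyB)
      S0 ((a :: (m ++ [x])) ::ₘ C) (A.erase a) hS.2 (goodC_cons.2 ⟨⟨by simp, hQn⟩, hC⟩) n1
      (Finset.erase_subset_erase _ hAB) hxB' n2
      (by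
        intro w hw hw2
        obtain ⟨hwa, hwB⟩ := Finset.mem_erase.1 hw
        obtain ⟨P2, hP2, Q2, hQ2, hQ2w, hQ2x⟩ := hF w hwB (by
          rcases hw2 with h | h
          · exact Or.inl (Finset.mem_of_mem_erase h)
          · exact Or.inr (by rw [TE_cons]; exact Multiset.mem_add.2 (Or.inr h)))
        rcases Multiset.mem_cons.1 hP2 with rfl | hP2'
        · have := hother hQ2 hQ2w hwa
          subst this
          simp at hQ2w
          exact absurd (hQ2w ▸ hwB) hxB
        · exact freshS_erase hP2' hQ2 hQ2w (hyS P2 hP2) hQ2x)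
    refine ⟨S', C', g1, g2, by simp at g3 ⊢; omega, ?_, ?_, ?_⟩
    · rw [g4, hTE, St_erase hyA]
      simp only [← Multiset.singleton_add]
      abel
    · intro v hv
      have h1 : TN (P ::ₘ S0) = {a} + {x} + TN S0 := by
        rw [TN_cons, ← hN, ← List.cons_append, N_eq]
      have h3 := g5 v hv
      rw [val_erase hyA, h1]
      simp only [Multiset.count_add, Multiset.count_singleton, if_neg hv] at h3 ⊢
      omega
    · intro hKx ⟨T, hT, hTK⟩
      refine g6 hKx ?_
      rw [Multiset.cons_add] at hT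
      rcases Multiset.mem_cons.1 hT with rfl | h
      · exact ⟨a :: (m ++ [x]), by simp, fun v hv => hTK v ((orient_mem hQ v).1 hv)⟩
      · exact ⟨T, by rw [Multiset.add_cons]; exact Multiset.mem_cons_of_mem h, hTK⟩
  · -- rotation
    have hw'E : s(w', x) ∈ TE (P ::ₘ S0) := by
      rw [TE_cons, ← hE, hQe]
      exact Multiset.mem_add.2 (Or.inl (mem_E_mid _ _ _ _))
    have hw'A : w' ∉ A := fun h => hA w' h (Multiset.mem_add.2 (Or.inl hw'E))
    have hw'y : w' ≠ a := fun h => hw'A (h ▸ hyA)
    cases B1 with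
    | nil =>
      simp at hQe
      exact absurd hQe.1.symm hw'y
    | cons a' B1 =>
      have ha : a' = a := by simp at hQe; exact hQe.1.symm
      subst ha
      obtain ⟨r1, r2, r3⟩ := rotate_props a' B1 w' x C1
      rw [← hQe] at r1 r2 r3
      set Q' := w' :: B1.reverse ++ a' :: x :: C1 with hQ'
      have hTE : TE (Q' ::ₘ S0) + {s(w', x)} = s(a', x) ::ₘ TE (P ::ₘ S0) := by
        rw [TE_cons, TE_cons, add_right_comm, r1, hE, ← Multiset.singleton_add]; abel
      have hTE2 : TE (Q' ::ₘ S0) + TC C + {s(w', x)} = s(a', x) ::ₘ (TE (P ::ₘ S0) + TC C) := by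
        rw [add_right_comm, hTE, Multiset.cons_add]
      obtain ⟨n1, n2⟩ := hnew _ hTE2
      have hw'A' : w' ∉ A.erase a' := fun h => hw'A (Finset.mem_of_mem_erase h)
      obtain ⟨S', C', g1, g2, g3, g4, g5, g6⟩ := ih (B.erase a') (Finset.erase_ssubset hyB)
        (Q' ::ₘ S0) C (insert w' (A.erase a'))
        (good_cons.2 ⟨⟨by simp [hQ'], r3.nodup_iff.2 hQn⟩, hS.2⟩) hC
        (Multiset.nodup_add.1 n1).1
        (Finset.insert_subset (Finset.mem_erase.2 ⟨hw'y, hw'⟩) (Finset.erase_subset_erase _ hAB))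
        hxB'
        (by
          intro z hz h
          rcases Finset.mem_insert.1 hz with rfl | hz
          · exact Multiset.disjoint_left.1 (Multiset.nodup_add.1 n1).2.2 h
              (Multiset.mem_singleton_self _)
          · exact n2 z hz (Multiset.mem_add.2 (Or.inl h)))
        (by
          intro w hw hw2
          obtain ⟨hwa, hwB⟩ := Finset.mem_erase.1 hw
          obtain ⟨P2, hP2, Q2, hQ2, hQ2w, hQ2x⟩ := hF w hwB (by
            rcases hw2 with h | h
            · rcases Finset.mem_insert.1 h with rfl | h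
              · exact Or.inr hw'E
              · exact Or.inl (Finset.mem_of_mem_erase h)
            · have : s(w, x) ∈ TE (Q' ::ₘ S0) + {s(w', x)} := Multiset.mem_add.2 (Or.inl h)
              rw [hTE] at this
              rcases Multiset.mem_cons.1 this with h | h
              · rw [Sym2.congr_left] at h
                exact absurd h hwa
              · exact Or.inr h)
          rcases Multiset.mem_cons.1 hP2 with rfl | hP2'
          · have := hother hQ2 hQ2w hwa
            subst this
            rcases hQ2x with h | h | ⟨B2, C2, w2, he, hw2⟩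
            · exact absurd (by rw [hQe]; simp) h
            · simp at h
              exact absurd h hyx
            · have hw2' : w2 ∈ B.erase a' := by
                refine Finset.mem_erase.2 ⟨?_, hw2⟩
                rintro rfl
                exact hyS P2 hP2 ((orient_props hQ2).1 ▸ he ▸ mem_E_mid B2 w2 x C2)
              have hr := rot_far a' B1 w' x C1 B2 w2 C2 (hQe ▸ hQn) (hQe ▸ he)
              refine ⟨Q', Multiset.mem_cons_self _ _, Q'.reverse, Or.inr rfl, ?_,
                Or.inr (Or.inr ⟨B2, a' :: B1 ++ [w'], w2, hr, hw2'⟩)⟩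
              rw [← hQ2w, he, hQ', hr]
              exact head?_append_cons_cons _ _ _ _ _
          · exact freshS_mono (freshS_erase hP2' hQ2 hQ2w (hyS P2 hP2) hQ2x)
              (fun _ h => Multiset.mem_cons_of_mem h))
      refine ⟨S', C', g1, g2, by simpa using g3, ?_, ?_, ?_⟩
      · rw [g4, St_erase hyA, St_erase (Finset.mem_insert_self w' _), Finset.erase_insert hw'A',
          ← Multiset.singleton_add s(w', x), ← add_assoc, hTE2]
        simp only [← Multiset.singleton_add]
        abel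
      · intro v hv
        have h1 : TN (Q' ::ₘ S0) + {a'} = TN (P ::ₘ S0) + {w'} := by
          rw [TN_cons, TN_cons, add_right_comm, r2, hN]; abel
        have h2 := congrArg (Multiset.count v) h1
        have h3 := g5 v hv
        rw [val_erase (Finset.mem_insert_self w' _), Finset.erase_insert hw'A'] at h3
        rw [val_erase hyA]
        simp only [Multiset.count_add] at h2 h3 ⊢
        omega
      · intro hKx ⟨T, hT, hTK⟩
        refine g6 hKx ?_
        rw [Multiset.cons_add] at hT
        rcases Multiset.mem_cons.1 hT with rfl | h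
        · exact ⟨Q', by simp, fun v hv => hTK v ((orient_mem hQ v).1 (r3.mem_iff.1 hv))⟩
        · exact ⟨T, by rw [Multiset.cons_add]; exact Multiset.mem_cons_of_mem h, hTK⟩

/-- Lovasz' construction: a star of new edges is inserted without increasing the number of
paths and cycles. -/
theorem star [DecidableEq V] [Fintype V] (x : V) (K : V → Prop) (S C : Multiset (List V))
    (A : Finset V) (hS : Good S) (hC : GoodC C) (hnd : (TE S + TC C).Nodup) (hxA : x ∉ A)
    (hA : ∀ y ∈ A, s(y, x) ∉ TE S + TC C)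
    (hN : ∀ w, w ≠ x → (w ∈ A ∨ s(w, x) ∈ TE S) → w ∈ TN S) :
    ∃ S' C', Good S' ∧ GoodC C' ∧
      Multiset.card S' + Multiset.card C' = Multiset.card S + Multiset.card C ∧
      TE S' + TC C' = TE S + TC C + St A x ∧
      (∀ v, v ≠ x → v ∉ A → v ∈ TN S → v ∈ TN S') ∧
      (K x → Tr S C K → Tr S' C' K) := by
  obtain ⟨S', C', g1, g2, g3, g4, g5, g6⟩ := star_aux x K (Finset.univ.erase x) S C A hS hC hnd
    (fun y hy => Finset.mem_erase.2 ⟨fun h => hxA (h ▸ hy), Finset.mem_univ _⟩) (by simp) hA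
    (by
      intro w hw h
      have hwx := (Finset.mem_erase.1 hw).1
      obtain ⟨P, hP, Q, hQ, hQw, h2⟩ := fresh_of_mem hS hwx (hN w hwx h)
      exact ⟨P, hP, Q, hQ, hQw, h2.imp id Or.inr⟩)
  refine ⟨S', C', g1, g2, g3, g4, fun v hv hvA h => ?_, g6⟩
  have h1 := g5 v hv
  rw [Multiset.count_add, Multiset.count_eq_zero_of_notMem (s := A.val) hvA, add_zero] at h1
  rw [← Multiset.count_pos, h1]
  exact Multiset.count_pos.2 h

end Pool.Agent.Work.MP_6b7c5d_co
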