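import Pool.Agent.Work.MP_6b7c5d_co.Ext

namespace Pool.Agent.Work.MP_6b7c5d_co

variable {V : Type*}

/-- Edge multiset of the cycle given by a list of vertices. -/
def CE : List V → Multiset (Sym2 V)
  | [] => 0
  | a :: l => E (a :: l ++ [a])

/-- Total edge multiset of a system of cycles. -/
def TC (C : Multiset (List V)) : Multiset (Sym2 V) := (C.map CE).sum

/-- Every member is a cycle list. -/
def GoodC (C : Multiset (List V)) : Prop := ∀ P ∈ C, 2 ≤ P.length ∧ P.Nodup

@[simp] theorem TC_zero : TC (0 : Multiset (List V)) = 0 := rfl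
@[simp] theorem TC_cons (P : List V) (S) : TC (P ::ₘ S) = CE P + TC S := by simp [TC]

theorem goodC_cons {P : List V} {S} :
    GoodC (P ::ₘ S) ↔ (2 ≤ P.length ∧ P.Nodup) ∧ GoodC S := by
  simp [GoodC]

theorem CE_rotate (p : List V) (a : V) (q : List V) : CE (p ++ a :: q) = CE (a :: q ++ p) := by
  cases p with
  | nil => simp
  | cons h p =>
    change E ((h :: p ++ a :: q) ++ [h]) = E ((a :: (q ++ h :: p)) ++ [a])
    have e1 : (h :: p ++ a :: q) ++ [h] = (h :: p) ++ a :: (q ++ [h]) := by simp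
    have e2 : (a :: (q ++ h :: p)) ++ [a] = (a :: q) ++ h :: (p ++ [a]) := by simp
    rw [e1, e2, E_append, E_append (a :: q), add_comm]
    rfl

/-- Open a cycle at a prescribed vertex. -/
theorem open_cycle {C : List V} (hC : 2 ≤ C.length ∧ C.Nodup) {a : V} (ha : a ∈ C) :
    ∃ (b : V) (m : List V), (a :: m ++ [b]).Perm C ∧ CE C = s(b, a) ::ₘ E (a :: m ++ [b]) := by
  obtain ⟨p, q, rfl⟩ := List.append_of_mem ha
  have hp : (a :: q ++ p).Perm (p ++ a :: q) := List.perm_append_comm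
  have hl := hp.length_eq
  rw [CE_rotate]
  rcases List.eq_nil_or_concat (q ++ p) with h | ⟨m, b, h⟩
  · have := hC.1
    rw [← hl, List.cons_append, h] at this
    simp at this
  · rw [List.concat_eq_append] at h
    refine ⟨b, m, ?_, ?_⟩
    · rw [List.cons_append, ← h]; exact hp
    · rw [List.cons_append, h]
      change E (a :: (m ++ [b]) ++ [a]) = _
      have e1 : a :: (m ++ [b]) ++ [a] = (a :: m) ++ b :: a :: [] := by simp
      rw [e1, E_mid]
      simp

theorem N_eq (a : V) (l : List V) (b : V) : N (a :: l ++ [b]) = {a} + {b} := by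
  rw [List.cons_append, N_cons]
  simp

theorem dpar_zero [Fintype V] : dpar (0 : Sym2 V → ZMod 2) = 0 := by
  funext v; simp [dpar]

theorem dpar_E [DecidableEq V] [Fintype V] : ∀ (a : V) (l : List V), (a :: l).IsChain (· ≠ ·) →
    dpar (par (E (a :: l))) = par (N (a :: l))
  | a, [], _ => by
    rw [E_single, par_zero, dpar_zero, N_cons, par_add]
    simp [add_self_z2]
  | a, b :: l, h => by
    rw [List.isChain_cons_cons] at h
    have h1 := N_head_change a b (b :: l) l (List.getLast?_cons_cons)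
    have h2 := congrArg par h1
    rw [par_add, par_add] at h2
    rw [E_cons_cons, par_cons, dpar_add, dpar_single h.1, dpar_E b l h.2]
    have h5 := add_self_z2 (par ({b} : Multiset V))
    linear_combination h5 - h2

theorem chain_of_nodup {l : List V} (h : l.Nodup) : l.IsChain (· ≠ ·) :=
  List.Pairwise.isChain h

theorem dpar_TE [DecidableEq V] [Fintype V] {S : Multiset (List V)} (hS : Good S) :
    dpar (par (TE S)) = par (TN S) := by
  induction S using Multiset.induction_on with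
  | empty => simp [dpar_zero]
  | cons P S ih =>
    rw [good_cons] at hS
    obtain ⟨a, l, rfl⟩ := List.exists_cons_of_ne_nil hS.1.1
    rw [TE_cons, TN_cons, par_add, par_add, dpar_add, ih hS.2, dpar_E a l (chain_of_nodup hS.1.2)]

theorem dpar_CE [DecidableEq V] [Fintype V] {C : List V} (hC : 2 ≤ C.length ∧ C.Nodup) :
    dpar (par (CE C)) = 0 := by
  obtain ⟨a, l, rfl⟩ := List.exists_cons_of_ne_nil (l := C) (by rintro rfl; simp at hC)
  obtain ⟨b, m, h1, h2⟩ := open_cycle hC (List.mem_cons_self (a := a) (l := l))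
  have hn := h1.nodup_iff.2 hC.2
  have hba : b ≠ a := by
    rintro rfl
    simp at hn
  rw [h2, par_cons, dpar_add, dpar_single hba, List.cons_append,
    dpar_E a (m ++ [b]) (chain_of_nodup hn), ← List.cons_append, N_eq, par_add]
  have h5 := add_self_z2 (par ({b} : Multiset V))
  have h6 := add_self_z2 (par ({a} : Multiset V))
  linear_combination h5 + h6

theorem dpar_TC [DecidableEq V] [Fintype V] {C : Multiset (List V)} (hC : GoodC C) :
    dpar (par (TC C)) = 0 := by
  induction C using Multiset.induction_on with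
  | empty => simp [dpar_zero]
  | cons P S ih =>
    rw [goodC_cons] at hC
    rw [TC_cons, par_add, dpar_add, ih hC.2, dpar_CE hC.1, add_zero]

theorem split_first (p : V → Prop) : ∀ (T : List V), (∃ v ∈ T, p v) →
    ∃ σ a τ, T = σ ++ a :: τ ∧ p a ∧ ∀ v ∈ σ, ¬ p v
  | [], h => by simp at h
  | t :: T, h => by
    by_cases ht : p t
    · exact ⟨[], t, T, rfl, ht, by simp⟩
    · obtain ⟨σ, a, τ, h1, h2, h3⟩ := split_first p T (by simpa [ht] using h)
      exact ⟨t :: σ, a, τ, by rw [h1]; rfl, h2, by simpa [ht] using h3⟩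

theorem N_cut (σ : List V) (a : V) (τ m : List V) (b : V) :
    N (a :: τ) + N (σ ++ a :: m ++ [b]) = N (σ ++ a :: τ) + {a} + {b} := by
  cases σ with
  | nil => rw [List.nil_append, List.nil_append, N_eq]; abel
  | cons s σ =>
    have e1 : s :: σ ++ a :: m ++ [b] = s :: (σ ++ a :: m) ++ [b] := by simp
    rw [e1, N_eq, List.cons_append, N_cons, N_cons]
    have : (s :: (σ ++ a :: τ)).getLast (List.cons_ne_nil _ _) =
        (a :: τ).getLast (List.cons_ne_nil _ _) := by
      simp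
    rw [this]; abel

/-- A cycle that meets the token path is absorbed. -/
theorem step_path [DecidableEq V] [Fintype V] (Z : V → Prop) (S : Multiset (List V))
    (T C : List V) (hS : Good S) (hC : 2 ≤ C.length ∧ C.Nodup) (hnd : (TE S + CE C).Nodup)
    (hZ : Supp S Z) (hCZ : ∀ v ∈ C, Z v) (hT : T ∈ S) (hTD : ∀ v ∈ T, v ∈ TN S)
    (hm : ∃ v ∈ T, v ∈ C) :
    ∃ S', Good S' ∧ Multiset.card S' = Multiset.card S + 1 ∧ Supp S' Z ∧
      TE S' = TE S + CE C ∧ Tok S' := by
  obtain ⟨σ, a, τ, rfl, haC, hσ⟩ := split_first (· ∈ C) T hm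
  obtain ⟨b, m, h1, h2⟩ := open_cycle hC haC
  obtain ⟨S0, rfl⟩ := Multiset.exists_cons_of_mem hT
  have hn := h1.nodup_iff.2 hC.2
  have hba : b ≠ a := by
    rintro rfl
    simp at hn
  rw [good_cons] at hS
  rw [supp_cons] at hZ
  have hE : s(b, a) ::ₘ TE ((a :: τ) ::ₘ (σ ++ a :: m ++ [b]) ::ₘ S0) =
      TE ((σ ++ a :: τ) ::ₘ S0) + CE C := by
    have e1 : σ ++ a :: m ++ [b] = σ ++ a :: (m ++ [b]) := by simp
    rw [h2, TE_cons, TE_cons, TE_cons, e1, E_append σ a τ, E_append σ a (m ++ [b]),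
      List.cons_append]
    simp only [← Multiset.singleton_add]
    abel
  rw [← hE, Multiset.nodup_cons] at hnd
  obtain ⟨S', g1, g2, g3, g4, g5⟩ := resolve Z ((a :: τ) ::ₘ (σ ++ a :: m ++ [b]) ::ₘ S0) a b
    (TN ((σ ++ a :: τ) ::ₘ S0)) (a :: τ)
    (good_cons.2 ⟨⟨List.cons_ne_nil _ _, (List.nodup_append.1 hS.1.2).2.1⟩, good_cons.2 ⟨⟨by simp, by
      rw [List.append_assoc, List.nodup_append]
      refine ⟨(List.nodup_append.1 hS.1.2).1, hn, ?_⟩
      rintro u hu v hv rfl
      exact hσ u hu (h1.mem_iff.1 hv)⟩, hS.2⟩⟩)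
    hnd.2 hba hnd.1
    (supp_cons.2 ⟨fun v hv => hZ.1 v (List.mem_append_right _ hv), supp_cons.2 ⟨by
      intro v hv
      rw [List.append_assoc] at hv
      rcases List.mem_append.1 hv with h | h
      · exact hZ.1 v (List.mem_append_left _ h)
      · exact hCZ v (h1.mem_iff.1 h), hZ.2⟩⟩)
    (hCZ b (h1.mem_iff.1 (by simp))) (Multiset.mem_cons_self _ _) (by rw [N_cons]; simp)
    (by rw [TN_cons, TN_cons, TN_cons, ← add_assoc, N_cut]; abel)
    (fun v hv => hTD v (List.mem_append_right _ hv))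
  exact ⟨S', g1, by simpa using g2, g3, g4.trans hE, g5⟩

/-- A cycle all of whose vertices are ends becomes a token path. -/
theorem step_cycle [DecidableEq V] [Fintype V] (Z : V → Prop) (S : Multiset (List V))
    (C : List V) (hS : Good S) (hC : 2 ≤ C.length ∧ C.Nodup) (hnd : (TE S + CE C).Nodup)
    (hZ : Supp S Z) (hCZ : ∀ v ∈ C, Z v) (hTD : ∀ v ∈ C, v ∈ TN S) :
    ∃ S', Good S' ∧ Multiset.card S' = Multiset.card S + 1 ∧ Supp S' Z ∧
      TE S' = TE S + CE C ∧ Tok S' := by
  obtain ⟨a, l, rfl⟩ := List.exists_cons_of_ne_nil (l := C) (by rintro rfl; simp at hC)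
  obtain ⟨b, m, h1, h2⟩ := open_cycle hC (List.mem_cons_self (a := a) (l := l))
  have hn := h1.nodup_iff.2 hC.2
  have hba : b ≠ a := by
    rintro rfl
    simp at hn
  have hE : s(b, a) ::ₘ TE ((a :: m ++ [b]) ::ₘ S) = TE S + CE (a :: l) := by
    rw [h2, TE_cons]
    simp only [← Multiset.singleton_add]
    abel
  rw [← hE, Multiset.nodup_cons] at hnd
  obtain ⟨S', g1, g2, g3, g4, g5⟩ := resolve Z ((a :: m ++ [b]) ::ₘ S) a b
    (TN S) (a :: m ++ [b]) (good_cons.2 ⟨⟨by simp, hn⟩, hS⟩) hnd.2 hba hnd.1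
    (supp_cons.2 ⟨fun v hv => hCZ v (h1.mem_iff.1 hv), hZ⟩)
    (hCZ b (h1.mem_iff.1 (by simp))) (Multiset.mem_cons_self _ _) (by rw [N_eq]; simp)
    (by rw [TN_cons, N_eq]; abel) (fun v hv => hTD v (h1.mem_iff.1 hv))
  exact ⟨S', g1, by simpa using g2, g3, g4.trans hE, g5⟩

/-- A path disjoint from a nonempty cover of an even graph is absorbed by a doubled edge. -/
theorem merge [DecidableEq V] [Fintype V] (Z : V → Prop) (S : Multiset (List V)) (T : List V)
    (hS : Good S) (h0 : S ≠ 0) (hev : dpar (par (TE S)) = 0) (hT : T ≠ [] ∧ T.Nodup)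
    (hZ : Supp S (fun v => Z v ∧ v ∉ T)) (hTZ : ∀ v ∈ T, Z v) :
    ∃ S', Good S' ∧ Multiset.card S' = Multiset.card S ∧ Supp S' Z ∧
      par (TE S') = par (TE S + E T) := by
  rw [dpar_TE hS] at hev
  obtain ⟨P, hP⟩ := Multiset.exists_mem_of_ne_zero h0
  obtain ⟨S0, rfl⟩ := Multiset.exists_cons_of_mem hP
  rw [good_cons] at hS
  rw [supp_cons] at hZ
  obtain ⟨u, l, rfl⟩ := List.exists_cons_of_ne_nil hS.1.1
  have hZ0 : Supp S0 Z := fun Q hQ v hv => (hZ.2 Q hQ v hv).1
  by_cases hl : l = []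
  · subst hl
    exact ⟨T ::ₘ S0, good_cons.2 ⟨hT, hS.2⟩, by simp, supp_cons.2 ⟨hTZ, hZ0⟩, by simp [add_comm]⟩
  have hu : u ∈ TN S0 := by
    by_contra hu
    have h1 := congrFun hev u
    have h2 : (u :: l).getLast (List.cons_ne_nil _ _) ≠ u := by
      intro h
      rw [List.getLast_cons hl] at h
      exact (List.nodup_cons.1 hS.1.2).1 (h ▸ List.getLast_mem hl)
    rw [TN_cons, N_cons, par, Multiset.count_add, Multiset.count_add,
      Multiset.count_eq_zero_of_notMem hu, Multiset.count_singleton_self,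
      Multiset.count_singleton, if_neg h2.symm] at h1
    simp at h1
  obtain ⟨P2, hP2, hu2⟩ := mem_TN.1 hu
  obtain ⟨S1, rfl⟩ := Multiset.exists_cons_of_mem hP2
  obtain ⟨Q, hQ, hQu⟩ := mem_N hu2
  obtain ⟨hE, -, hnod⟩ := orient_props hQ
  obtain ⟨hS1, hS2⟩ := hS
  rw [good_cons] at hS2
  obtain ⟨hZ1, hZ2⟩ := hZ
  rw [supp_cons] at hZ2 hZ0
  obtain ⟨z, t, rfl⟩ := List.exists_cons_of_ne_nil hT.1
  cases Q with
  | nil => simp at hQu
  | cons u' l2 =>
    simp only [List.head?_cons, Option.some.injEq] at hQu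
    subst hQu
    refine ⟨(t.reverse ++ z :: u' :: l) ::ₘ (z :: u' :: l2) ::ₘ S1, good_cons.2 ⟨⟨by simp, ?_⟩,
      good_cons.2 ⟨⟨by simp, ?_⟩, hS2.2⟩⟩, by simp, supp_cons.2 ⟨?_, supp_cons.2 ⟨?_, hZ0.2⟩⟩, ?_⟩
    · have e1 : t.reverse ++ z :: u' :: l = (z :: t).reverse ++ (u' :: l) := by simp
      rw [e1, List.nodup_append]
      refine ⟨List.nodup_reverse.2 hT.2, hS1.2, ?_⟩
      rintro a ha b hb rfl
      exact (hZ1 a hb).2 (List.mem_reverse.1 ha)
    · refine List.nodup_cons.2 ⟨fun h => ?_, hnod hS2.1.2⟩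
      exact (hZ2.1 z ((orient_mem hQ z).1 h)).2 (by simp)
    · intro v hv
      have e1 : t.reverse ++ z :: u' :: l = (z :: t).reverse ++ (u' :: l) := by simp
      rw [e1] at hv
      rcases List.mem_append.1 hv with h | h
      · exact hTZ v (List.mem_reverse.1 h)
      · exact (hZ1 v h).1
    · intro v hv
      rcases List.mem_cons.1 hv with rfl | h
      · exact hTZ v (by simp)
      · exact (hZ2.1 v ((orient_mem hQ v).1 h)).1
    · have e2 : t.reverse ++ [z] = (z :: t).reverse := by simp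
      rw [TE_cons, TE_cons, TE_cons, TE_cons, E_mid, e2, E_reverse, E_cons_cons, hE]
      simp only [← Multiset.singleton_add, par_add]
      have h5 := add_self_z2 (par ({s(z, u')} : Multiset (Sym2 V)))
      linear_combination h5

/-- With a token path, every cycle of a decomposition costs only one path. -/
theorem token [DecidableEq V] [Fintype V] (c : ℕ) : ∀ (Z : V → Prop) (S C : Multiset (List V)),
    Multiset.card C = c → Good S → GoodC C → (TE S + TC C).Nodup → Supp S Z → Supp C Z → Tok S →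
    ∃ S', Good S' ∧ Multiset.card S' = Multiset.card S + c ∧ Supp S' Z ∧
      par (TE S') = par (TE S + TC C) := by
  induction c with
  | zero =>
    intro Z S C hc hS _ _ hZ _ _
    rw [Multiset.card_eq_zero] at hc
    subst hc
    exact ⟨S, hS, rfl, hZ, by simp⟩
  | succ c ih =>
    have key : ∀ (Z : V → Prop) (S C : Multiset (List V)) (T : List V),
        Multiset.card C = c + 1 → Good S → GoodC C → (TE S + TC C).Nodup → Supp S Z → Supp C Z →
        T ∈ S → (∀ v ∈ T, v ∈ TN S) → (∃ P ∈ C, ∃ v ∈ T, v ∈ P) →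
        ∃ S', Good S' ∧ Multiset.card S' = Multiset.card S + (c + 1) ∧ Supp S' Z ∧
          par (TE S') = par (TE S + TC C) := by
      intro Z S C T hc hS hC hnd hZ hCZ hT hTD ⟨P, hP, hm⟩
      obtain ⟨C0, rfl⟩ := Multiset.exists_cons_of_mem hP
      rw [goodC_cons] at hC
      rw [supp_cons] at hCZ
      rw [TC_cons, ← add_assoc] at hnd
      obtain ⟨S1, g1, g2, g3, g4, g5⟩ := step_path Z S T P hS hC.1 (Multiset.nodup_add.1 hnd).1 hZ
        hCZ.1 hT hTD hm
      obtain ⟨S', k1, k2, k3, k4⟩ := ih Z S1 C0 (by simpa using hc) g1 hC.2 (g4 ▸ hnd) g3 hCZ.2 g5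
      exact ⟨S', k1, by omega, k3, by rw [k4, g4, TC_cons, add_assoc]⟩
    intro Z S C hc hS hC hnd hZ hCZ ⟨T, hT, hTD⟩
    by_cases hm : ∃ P ∈ C, ∃ v ∈ T, v ∈ P
    · exact key Z S C T hc hS hC hnd hZ hCZ hT hTD hm
    obtain ⟨P, hP⟩ := Multiset.card_pos_iff_exists_mem.1 (by omega : 0 < Multiset.card C)
    obtain ⟨u, l, rfl⟩ := List.exists_cons_of_ne_nil (l := P) (by
      rintro rfl; simpa using (hC _ hP).1)
    have hCZ' : Supp C (fun v => Z v ∧ v ∉ T) := fun Q hQ v hv =>
      ⟨hCZ Q hQ v hv, fun h => hm ⟨Q, hQ, v, h, hv⟩⟩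
    obtain ⟨S1, g1, g2, g3, g4⟩ := key (fun v => Z v ∧ v ∉ T) ([u] ::ₘ 0) C [u] hc
      (by simp [Good]) hC (by
        rw [TE_cons, E_single, TE_zero, add_zero, zero_add]; exact (Multiset.nodup_add.1 hnd).2.1)
      (by simpa [Supp] using hCZ' _ hP u (by simp)) hCZ' (by simp)
      (by rw [TN_cons, N_cons]; simp) ⟨_, hP, u, by simp, by simp⟩
    obtain ⟨S0, rfl⟩ := Multiset.exists_cons_of_mem hT
    rw [good_cons] at hS
    rw [supp_cons] at hZ
    have g5 : par (TE S1) = par (TC C) := by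
      rwa [TE_cons, E_single, TE_zero, add_zero, zero_add] at g4
    obtain ⟨S2, k1, k2, k3, k4⟩ := merge Z S1 T g1 (by rintro rfl; simp at g2)
      (by rw [g5, dpar_TC hC]) hS.1 g3 hZ.1
    refine ⟨S2 + S0, good_add k1 hS.2, ?_, ?_, ?_⟩
    · simp at g2 ⊢
      omega
    · intro Q hQ
      rcases Multiset.mem_add.1 hQ with h | h
      · exact k3 Q h
      · exact hZ.2 Q h
    · rw [TE_add, par_add, k4, par_add, g5, TE_cons, par_add, par_add]
      abel

end Pool.Agent.Work.MP_6b7c5d_co
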